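import Pool.Agent.helper14.NR.E6d.PZ

/-!
Generated: certificates.
-/

namespace Pool.Agent.helper14.NR.E6d

open Pool.Agent.helper31.IA (Z)
open Pool.Agent.helper31.IX (Op XOps runX Cov CovD cov_split covD_split)
open Pool.Agent.helper31.IC (TD)
open Pool.Agent.helper63.RG (reloc)
open Pool.Agent.helper63.NF hiding TD
open Pool.Agent.helper14.CF (xE covD_E)
open Pool.Agent.helper14.NR (share)

mutual
theorem Z_c0_t5 : CovD 1 gZ [(146028888064, 8589934592), (34359738368, 34359738368), (549755813888, 549755813888)] :=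
  covD_E kZ_eq (.n 2 (.n 2 (.n 2 (.n 2 (.l 0) (.l 0)) (.n 2 (.l 0) (.l 0))) (.n 2 (.n 0 (.l 0) (.l 0)) (.l 0))) (.n 2 (.n 2 (.l 0) (.l 0)) (.n 2 (.l 0) (.l 0))))
    [(146028888064, 8589934592), (34359738368, 34359738368), (549755813888, 549755813888)] rfl (by decide +kernel)
theorem Z_c0_t6 : CovD 1 gZ [(146028888064, 8589934592), (103079215104, 34359738368), (549755813888, 549755813888)] :=
  covD_E kZ_eq (.n 2 (.n 2 (.n 2 (.l 0) (.l 0)) (.n 2 (.l 0) (.l 0))) (.n 2 (.n 2 (.l 0) (.l 0)) (.n 2 (.l 0) (.l 0))))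
    [(146028888064, 8589934592), (103079215104, 34359738368), (549755813888, 549755813888)] rfl (by decide +kernel)
end

mutual
theorem Z_c0_t7 : CovD 1 gZ [(146028888064, 8589934592), (206158430208, 68719476736), (549755813888, 549755813888)] :=
  covD_E kZ_eq (.n 2 (.n 2 (.n 0 (.n 2 (.l 0) (.l 0)) (.n 2 (.l 0) (.l 0))) (.n 2 (.n 0 (.l 0) (.l 0)) (.l 0))) (.n 2 (.n 2 (.l 0) (.l 0)) (.n 2 (.l 0) (.l 0))))
    [(146028888064, 8589934592), (206158430208, 68719476736), (549755813888, 549755813888)] rfl (by decide +kernel)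
theorem Z_c0_t8 : CovD 1 gZ [(146028888064, 8589934592), (412316860416, 137438953472), (549755813888, 549755813888)] :=
  covD_E kZ_eq (.n 1 (.n 2 (.n 2 (.n 2 (.l 0) (.l 0)) (.n 2 (.l 0) (.l 0))) (.n 2 (.n 2 (.l 0) (.l 0)) (.n 2 (.l 0) (.l 0)))) (.n 2 (.n 2 (.n 2 (.l 0) (.l 0)) (.n 2 (.l 0) (.l 0))) (.n 2 (.n 2 (.l 0) (.l 0)) (.n 2 (.l 0) (.l 0)))))
    [(146028888064, 8589934592), (412316860416, 137438953472), (549755813888, 549755813888)] rfl (by decide +kernel)
end

mutual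
theorem Z_c0_t11 : CovD 1 gZ [(146028888064, 8589934592), (618475290624, 68719476736), (549755813888, 549755813888)] :=
  covD_E kZ_eq (.n 2 (.n 2 (.n 2 (.l 0) (.l 0)) (.n 2 (.l 0) (.l 0))) (.n 2 (.n 2 (.l 0) (.l 0)) (.n 2 (.l 0) (.n 0 (.l 0) (.l 0)))))
    [(146028888064, 8589934592), (618475290624, 68719476736), (549755813888, 549755813888)] rfl (by decide +kernel)
theorem Z_c0_t12 : CovD 1 gZ [(146028888064, 8589934592), (755914244096, 68719476736), (549755813888, 549755813888)] :=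
  covD_E kZ_eq (.n 2 (.n 2 (.n 2 (.l 0) (.n 0 (.l 0) (.l 0))) (.n 0 (.n 2 (.l 0) (.l 0)) (.n 2 (.l 0) (.l 0)))) (.n 0 (.n 2 (.n 2 (.l 0) (.l 0)) (.n 2 (.l 0) (.l 0))) (.n 2 (.n 2 (.l 0) (.l 0)) (.n 2 (.l 0) (.l 0)))))
    [(146028888064, 8589934592), (755914244096, 68719476736), (549755813888, 549755813888)] rfl (by decide +kernel)
end

mutual
theorem Z_c0_t14 : CovD 1 gZ [(146028888064, 8589934592), (893353197568, 68719476736), (549755813888, 549755813888)] :=
  covD_E kZ_eq (.n 2 (.n 2 (.n 2 (.l 0) (.n 0 (.l 0) (.l 0))) (.n 0 (.n 2 (.l 0) (.l 0)) (.n 2 (.l 0) (.l 0)))) (.n 0 (.n 2 (.n 1 (.l 0) (.l 0)) (.n 2 (.l 0) (.l 0))) (.n 2 (.n 2 (.l 0) (.l 0)) (.n 2 (.l 0) (.l 0)))))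
    [(146028888064, 8589934592), (893353197568, 68719476736), (549755813888, 549755813888)] rfl (by decide +kernel)
theorem Z_c0_t15 : CovD 1 gZ [(146028888064, 8589934592), (1030792151040, 68719476736), (549755813888, 549755813888)] :=
  covD_E kZ_eq (.n 0 (.n 2 (.n 1 (.n 2 (.l 0) (.l 0)) (.n 2 (.l 0) (.l 0))) (.n 2 (.n 1 (.l 0) (.l 0)) (.n 2 (.l 0) (.l 0)))) (.n 2 (.n 1 (.n 2 (.l 0) (.l 0)) (.n 2 (.l 0) (.l 0))) (.n 2 (.n 2 (.l 0) (.l 0)) (.n 2 (.l 0) (.l 0)))))
    [(146028888064, 8589934592), (1030792151040, 68719476736), (549755813888, 549755813888)] rfl (by decide +kernel)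
end

mutual
theorem Z_c0_t20 : CovD 1 gZ [(163208757248, 8589934592), (68719476736, 68719476736), (274877906944, 274877906944)] :=
  covD_E kZ_eq (.n 2 (.n 1 (.n 2 (.n 2 (.l 0) (.l 0)) (.n 2 (.l 0) (.l 0))) (.n 2 (.l 0) (.l 0))) (.n 2 (.n 2 (.l 0) (.l 0)) (.n 1 (.l 0) (.l 0))))
    [(163208757248, 8589934592), (68719476736, 68719476736), (274877906944, 274877906944)] rfl (by decide +kernel)
theorem Z_c0_t21 : CovD 1 gZ [(163208757248, 8589934592), (68719476736, 68719476736), (824633720832, 274877906944)] :=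
  covD_E kZ_eq (.n 0 (.n 2 (.n 2 (.l 0) (.l 0)) (.n 2 (.l 0) (.l 0))) (.n 2 (.n 2 (.l 0) (.l 0)) (.n 2 (.l 0) (.l 0))))
    [(163208757248, 8589934592), (68719476736, 68719476736), (824633720832, 274877906944)] rfl (by decide +kernel)
end

mutual
theorem Z_c0_t22 : CovD 1 gZ [(163208757248, 8589934592), (206158430208, 68719476736), (549755813888, 549755813888)] :=
  covD_E kZ_eq (.n 2 (.n 2 (.n 2 (.l 0) (.n 0 (.l 0) (.l 0))) (.n 2 (.l 0) (.l 0))) (.n 2 (.n 2 (.l 0) (.l 0)) (.n 2 (.l 0) (.l 0))))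
    [(163208757248, 8589934592), (206158430208, 68719476736), (549755813888, 549755813888)] rfl (by decide +kernel)
theorem Z_c0_t23 : CovD 1 gZ [(163208757248, 8589934592), (412316860416, 137438953472), (549755813888, 549755813888)] :=
  covD_E kZ_eq (.n 1 (.n 2 (.n 2 (.n 2 (.l 0) (.l 0)) (.n 2 (.l 0) (.l 0))) (.n 2 (.n 2 (.l 0) (.l 0)) (.n 2 (.l 0) (.l 0)))) (.n 2 (.n 2 (.n 2 (.l 0) (.l 0)) (.n 2 (.l 0) (.l 0))) (.n 2 (.n 2 (.l 0) (.l 0)) (.n 2 (.l 0) (.l 0)))))
    [(163208757248, 8589934592), (412316860416, 137438953472), (549755813888, 549755813888)] rfl (by decide +kernel)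
end

mutual
theorem Z_c0_t26 : CovD 1 gZ [(163208757248, 8589934592), (618475290624, 68719476736), (549755813888, 549755813888)] :=
  covD_E kZ_eq (.n 2 (.n 2 (.n 2 (.l 0) (.l 0)) (.n 2 (.l 0) (.l 0))) (.n 2 (.n 2 (.l 0) (.l 0)) (.n 2 (.l 0) (.n 0 (.l 0) (.l 0)))))
    [(163208757248, 8589934592), (618475290624, 68719476736), (549755813888, 549755813888)] rfl (by decide +kernel)
theorem Z_c0_t27 : CovD 1 gZ [(163208757248, 8589934592), (755914244096, 68719476736), (549755813888, 549755813888)] :=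
  covD_E kZ_eq (.n 2 (.n 2 (.n 2 (.l 0) (.l 0)) (.n 2 (.l 0) (.l 0))) (.n 2 (.n 2 (.l 0) (.l 0)) (.n 0 (.n 2 (.l 0) (.l 0)) (.n 2 (.l 0) (.l 0)))))
    [(163208757248, 8589934592), (755914244096, 68719476736), (549755813888, 549755813888)] rfl (by decide +kernel)
end

mutual
theorem Z_c0_t29 : CovD 1 gZ [(163208757248, 8589934592), (893353197568, 68719476736), (549755813888, 549755813888)] :=
  covD_E kZ_eq (.n 2 (.n 2 (.n 2 (.l 0) (.l 0)) (.n 2 (.l 0) (.l 0))) (.n 2 (.n 2 (.l 0) (.l 0)) (.n 0 (.n 2 (.l 0) (.l 0)) (.n 2 (.l 0) (.l 0)))))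
    [(163208757248, 8589934592), (893353197568, 68719476736), (549755813888, 549755813888)] rfl (by decide +kernel)
theorem Z_c0_t30 : CovD 1 gZ [(163208757248, 8589934592), (1030792151040, 68719476736), (549755813888, 549755813888)] :=
  covD_E kZ_eq (.n 2 (.n 2 (.n 2 (.l 0) (.l 0)) (.n 2 (.l 0) (.l 0))) (.n 0 (.n 2 (.n 2 (.l 0) (.l 0)) (.n 2 (.l 0) (.l 0))) (.n 2 (.n 2 (.l 0) (.l 0)) (.n 2 (.l 0) (.l 0)))))
    [(163208757248, 8589934592), (1030792151040, 68719476736), (549755813888, 549755813888)] rfl (by decide +kernel)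
end

mutual
theorem T_c0 : CovD 1 gT [(154618822656, 17179869184), (549755813888, 549755813888)] :=
  covD_E kT_eq (.n 1 (.l 0) (.l 0))
    [(154618822656, 17179869184), (549755813888, 549755813888)] rfl (by decide +kernel)
theorem S_c0 : CovD 0 gS [(154618822656, 17179869184), (549755813888, 549755813888)] :=
  covD_E kS_eq (.n 1 (.n 0 (.n 0 (.n 1 (.l 0) (.l 0)) (.n 1 (.l 0) (.n 0 (.l 0) (.l 0)))) (.n 1 (.n 0 (.l 0) (.l 0)) (.n 1 (.l 0) (.n 0 (.l 0) (.l 0))))) (.n 1 (.n 0 (.n 1 (.l 0) (.l 0)) (.n 1 (.l 0) (.l 0))) (.l 0)))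
    [(154618822656, 17179869184), (549755813888, 549755813888)] rfl (by decide +kernel)
end

theorem Z_c0_t4 : CovD 1 gZ [(146028888064, 8589934592), (68719476736, 68719476736), (549755813888, 549755813888)] :=
  covD_split 1 (by decide +kernel) Z_c0_t5 Z_c0_t6

theorem Z_c0_t3 : CovD 1 gZ [(146028888064, 8589934592), (137438953472, 137438953472), (549755813888, 549755813888)] :=
  covD_split 1 (by decide +kernel) Z_c0_t4 Z_c0_t7

theorem Z_c0_t2 : CovD 1 gZ [(146028888064, 8589934592), (274877906944, 274877906944), (549755813888, 549755813888)] :=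
  covD_split 1 (by decide +kernel) Z_c0_t3 Z_c0_t8

theorem Z_c0_t10 : CovD 1 gZ [(146028888064, 8589934592), (687194767360, 137438953472), (549755813888, 549755813888)] :=
  covD_split 1 (by decide +kernel) Z_c0_t11 Z_c0_t12

theorem Z_c0_t13 : CovD 1 gZ [(146028888064, 8589934592), (962072674304, 137438953472), (549755813888, 549755813888)] :=
  covD_split 1 (by decide +kernel) Z_c0_t14 Z_c0_t15

theorem Z_c0_t9 : CovD 1 gZ [(146028888064, 8589934592), (824633720832, 274877906944), (549755813888, 549755813888)] :=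
  covD_split 1 (by decide +kernel) Z_c0_t10 Z_c0_t13

theorem Z_c0_t1 : CovD 1 gZ [(146028888064, 8589934592), (549755813888, 549755813888), (549755813888, 549755813888)] :=
  covD_split 1 (by decide +kernel) Z_c0_t2 Z_c0_t9

theorem Z_c0_t19 : CovD 1 gZ [(163208757248, 8589934592), (68719476736, 68719476736), (549755813888, 549755813888)] :=
  covD_split 2 (by decide +kernel) Z_c0_t20 Z_c0_t21

theorem Z_c0_t18 : CovD 1 gZ [(163208757248, 8589934592), (137438953472, 137438953472), (549755813888, 549755813888)] :=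
  covD_split 1 (by decide +kernel) Z_c0_t19 Z_c0_t22

theorem Z_c0_t17 : CovD 1 gZ [(163208757248, 8589934592), (274877906944, 274877906944), (549755813888, 549755813888)] :=
  covD_split 1 (by decide +kernel) Z_c0_t18 Z_c0_t23

theorem Z_c0_t25 : CovD 1 gZ [(163208757248, 8589934592), (687194767360, 137438953472), (549755813888, 549755813888)] :=
  covD_split 1 (by decide +kernel) Z_c0_t26 Z_c0_t27

theorem Z_c0_t28 : CovD 1 gZ [(163208757248, 8589934592), (962072674304, 137438953472), (549755813888, 549755813888)] :=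
  covD_split 1 (by decide +kernel) Z_c0_t29 Z_c0_t30

theorem Z_c0_t24 : CovD 1 gZ [(163208757248, 8589934592), (824633720832, 274877906944), (549755813888, 549755813888)] :=
  covD_split 1 (by decide +kernel) Z_c0_t25 Z_c0_t28

theorem Z_c0_t16 : CovD 1 gZ [(163208757248, 8589934592), (549755813888, 549755813888), (549755813888, 549755813888)] :=
  covD_split 1 (by decide +kernel) Z_c0_t17 Z_c0_t24

theorem Z_c0 : CovD 1 gZ [(154618822656, 17179869184), (549755813888, 549755813888), (549755813888, 549755813888)] :=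
  covD_split 0 (by decide +kernel) Z_c0_t1 Z_c0_t16

end Pool.Agent.helper14.NR.E6d
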