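import Pool.Agent.helper14.NR.E6d.Tab
import Pool.Agent.helper14.NR.Share

/-!
Generated: programs and compiled forms.
-/

namespace Pool.Agent.helper14.NR.E6d

open Pool.Agent.helper31.IA (Z)
open Pool.Agent.helper31.IX (Op XOps runX Cov CovD cov_split covD_split)
open Pool.Agent.helper31.IC (TD)
open Pool.Agent.helper63.RG (reloc)
open Pool.Agent.helper63.NF hiding TD
open Pool.Agent.helper14.CF (xE covD_E)
open Pool.Agent.helper14.NR (share)

def p_Z_0 : List Op := [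
  .pos 0,
  .scale ⟨33292438994944, 0, 0, 0⟩ 0,
  .const ⟨0, 15300552556544, 0, 0⟩,
  .add 1 0,
  .mul 0 3,
  .const ⟨2538325671936, 0, 0, 0⟩,
  .add 1 0,
  .mul 7 0,
  .const ⟨1099511627776, 0, 0, 0⟩,
  .add 1 0,
  .inv 9,
  .mul 10 1,
  .scale ⟨2199023255552, 0, 0, 0⟩ 0,
  .exp 1,
  .neg 2,
  .exp 0,
  .mul 2 2,
  .mul 1 1,
  .mul 0 0,
  .sub 5 3,
  .add 6 4,
  .mul 1 0,
  .scale ⟨549755813888, 0, 0, 0⟩ 0,
  .mul 3 3,
  .mul 1 13,
  .scale ⟨2199023255552, 0, 0, 0⟩ 15,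
  .neg 0,
  .exp 0,
  .const ⟨1099511627776, 0, 0, 0⟩,
  .add 1 0,
  .pos 0,
  .inv 0,
  .mul 3 0,
  .add 15 14,
  .scale ⟨549755813888, 0, 0, 0⟩ 0,
  .const ⟨154618822656, 0, 0, 0⟩,
  .sub 34 0,
  .const ⟨1623497637888, 0, 0, 0⟩,
  .sub 27 0,
  .mul 0 0,
  .mul 0 1,
  .mul 4 2,
  .mul 5 2,
  .mul 6 6,
  .mul 0 5,
  .mul 1 8,
  .scale ⟨0, 594666048, 0, 0⟩ 7,
  .scale ⟨3336493952, 0, 0, 0⟩ 7,
  .add 1 0,
  .scale ⟨1399373632, 0, 0, 0⟩ 8,
  .add 1 0,
  .scale ⟨293241411776, 0, 0, 0⟩ 14,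
  .add 1 0,
  .scale ⟨0, 88416207360, 0, 0⟩ 11,
  .add 1 0,
  .scale ⟨10426423872, 0, 0, 0⟩ 12,
  .add 1 0,
  .scale ⟨77459315456, 0, 0, 0⟩ 13,
  .add 1 0,
  .scale ⟨1061676362240, 0, 0, 0⟩ 14,
  .add 1 0,
  .scale ⟨18662184466368, 0, 0, 0⟩ 15,
  .add 1 0,
  .const ⟨618026960512, 0, 0, 0⟩,
  .add 1 0,
  .scale ⟨0, 2125004096, 0, 0⟩ 26,
  .scale ⟨23711680, 0, 0, 0⟩ 26,
  .add 1 0,
  .scale ⟨0, 76269569152, 0, 0⟩ 31,
  .add 1 0,
  .scale ⟨0, 2734004672, 0, 0⟩ 28,
  .add 1 0,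
  .scale ⟨0, 202022537856, 0, 0⟩ 28,
  .add 1 0,
  .const ⟨0, 13931174016, 0, 0⟩,
  .add 1 0,
  .scale ⟨330536768, 0, 0, 0⟩ 37,
  .scale ⟨0, 1666385728, 0, 0⟩ 40,
  .add 1 0,
  .const ⟨0, 255209152, 0, 0⟩,
  .add 1 0,
  .scale ⟨0, 0, 1099511627776, 0⟩ 81,
  .scale ⟨549755813888, 0, 0, 0⟩ 0,
  .add 0 53,
  .inv 0,
  .mul 3 0,
  .scale ⟨0, 143518281024, 0, 0⟩ 0,
  .const ⟨0, 31769715968, 0, 0⟩,
  .add 1 0,
  .mul 3 0,
  .const ⟨278211310976, 0, 0, 0⟩,
  .add 1 0,
  .mul 6 0,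
  .const ⟨0, 793506521600, 0, 0⟩,
  .add 1 0,
  .mul 9 0,
  .scale ⟨0, 337265561216, 0, 0⟩ 57,
  .scale ⟨0, 3171997818496, 0, 0⟩ 60,
  .add 1 0,
  .const ⟨949195584384, 0, 0, 0⟩,
  .add 1 0,
  .add 5 0,
  .mul 16 0,
  .scale ⟨594202939072, 0, 0, 0⟩ 64,
  .scale ⟨10514962474688, 0, 0, 0⟩ 67,
  .add 1 0,
  .const ⟨0, 816902713408, 0, 0⟩,
  .add 1 0,
  .add 5 0,
  .mul 23 0,
  .scale ⟨0, 515062083520, 0, 0⟩ 71,
  .scale ⟨0, 11623006838144, 0, 0⟩ 74,
  .add 1 0,
  .const ⟨92308405760, 0, 0, 0⟩,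
  .add 1 0,
  .add 5 0,
  .mul 30 0,
  .scale ⟨20771600192, 0, 0, 0⟩ 78,
  .scale ⟨0, 109128087680, 0, 0⟩ 78,
  .add 1 0,
  .scale ⟨0, 10703428224, 0, 0⟩ 83,
  .add 1 0,
  .scale ⟨0, 262279890688, 0, 0⟩ 80,
  .add 1 0,
  .scale ⟨31867262540224, 0, 0, 0⟩ 80,
  .add 1 0,
  .const ⟨0, 91049434368, 0, 0⟩,
  .add 1 0,
  .add 11 0,
  .mul 43 0,
  .scale ⟨255206890304, 0, 0, 0⟩ 91,
  .scale ⟨48254659328, 0, 0, 0⟩ 91,
  .add 1 0,
  .scale ⟨0, 13873258007232, 0, 0⟩ 96,
  .add 1 0,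
  .scale ⟨0, 2470414439936, 0, 0⟩ 93,
  .add 1 0,
  .scale ⟨0, 66408386755776, 0, 0⟩ 93,
  .add 1 0,
  .const ⟨0, 387406483008, 0, 0⟩,
  .add 1 0,
  .add 11 0,
  .mul 56 0,
  .scale ⟨0, 530507286080, 0, 0⟩ 104,
  .scale ⟨0, 89932695360, 0, 0⟩ 104,
  .add 1 0,
  .scale ⟨0, 1304065168320, 0, 0⟩ 109,
  .add 1 0,
  .scale ⟨0, 1597370384064, 0, 0⟩ 106,
  .add 1 0,
  .scale ⟨12624974727040, 0, 0, 0⟩ 106,
  .add 1 0,
  .const ⟨3526641754112, 0, 0, 0⟩,
  .add 1 0,
  .add 11 0,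
  .mul 69 0,
  .scale ⟨558864633920, 0, 0, 0⟩ 117,
  .scale ⟨0, 112062954368, 0, 0⟩ 117,
  .add 1 0,
  .scale ⟨2949282048, 0, 0, 0⟩ 118,
  .add 1 0,
  .scale ⟨5356231329088, 0, 0, 0⟩ 124,
  .add 1 0,
  .scale ⟨1289511224192, 0, 0, 0⟩ 121,
  .add 1 0,
  .scale ⟨0, 1130085825536, 0, 0⟩ 122,
  .add 1 0,
  .scale ⟨0, 10722031711104, 0, 0⟩ 123,
  .add 1 0,
  .scale ⟨0, 5744559240832, 0, 0⟩ 124,
  .add 1 0,
  .scale ⟨0, 33077843126592, 0, 0⟩ 125,
  .add 1 0,
  .const ⟨909282171328, 0, 0, 0⟩,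
  .add 1 0,
  .mul 0 164,
  .add 20 0,
  .mul 175 175,
  .scale ⟨5703716569088, 0, 0, 0⟩ 0,
  .const ⟨1726576852992, 0, 0, 0⟩,
  .add 1 0,
  .scale ⟨4398046511104, 0, 0, 0⟩ 170,
  .mul 96 1,
  .scale ⟨4398046511104, 0, 0, 0⟩ 0,
  .add 2 0,
  .scale ⟨0, 551558971392, 0, 0⟩ 146,
  .scale ⟨0, 144768368640, 0, 0⟩ 146,
  .add 1 0,
  .scale ⟨2569607643136, 0, 0, 0⟩ 147,
  .add 1 0,
  .scale ⟨1620948746240, 0, 0, 0⟩ 153,
  .add 1 0,
  .scale ⟨5097332604928, 0, 0, 0⟩ 150,
  .add 1 0,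
  .const ⟨413299179520, 0, 0, 0⟩,
  .add 1 0,
  .scale ⟨3161095929856, 0, 0, 0⟩ 182,
  .neg 0,
  .exp 0,
  .mul 3 0,
  .mul 0 15,
  .scale ⟨879662989312, 0, 0, 0⟩ 16,
  .add 0 172,
  .pos 0,
  .inv 0,
  .mul 3 0,
  .neg 28,
  .exp 0,
  .add 0 177,
  .pos 0,
  .log 0,
  .mul 4 210,
  .sub 180 0,
  .log 0,
  .mul 5 2,
  .add 0 183,
  .pos 0,
  .log 0,
  .scale ⟨274877906944, 0, 0, 0⟩ 190,
  .log 185,
  .add 206 0,
  .sub 9 3,
  .sub 0 1,
  .mul 0 218,
  .exp 0,
  .sub 7 10,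
  .add 0 46,
  .mul 0 222,
  .exp 0,
  .mul 224 45,
  .scale ⟨1649267441664, 0, 0, 0⟩ 11,
  .add 0 198,
  .mul 2 0,
  .mul 230 0,
  .scale ⟨0, 0, 1099511627776, 0⟩ 0,
  .mul 0 0,
  .sub 17 0,
  .mul 12 12,
  .mul 0 1,
  .scale ⟨4398046511104, 0, 0, 0⟩ 0,
  .sub 207 0,
  .log 0,
  .scale ⟨549755813888, 0, 0, 0⟩ 0,
  .exp 0,
  .mul 19 9,
  .mul 0 1,
  .mul 27 17,
  .scale ⟨2199023255552, 0, 0, 0⟩ 10,
  .add 1 0,
  .mul 11 0,
  .add 0 4,
  .mul 22 0,
  .scale ⟨4398046511104, 0, 0, 0⟩ 0,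
  .add 0 220,
  .log 0,
  .scale ⟨549755813888, 0, 0, 0⟩ 0,
  .exp 0,
  .sub 0 219,
  .mul 229 229,
  .const ⟨28141699465216, 0, 0, 0⟩,
  .add 1 0,
  .pos 0,
  .inv 0,
  .mul 4 247,
  .mul 0 0,
  .sub 0 5,
  .mul 0 3,
  .lt 0 1099510579200,
  .mul 41 31,
  .scale ⟨2199023255552, 0, 0, 0⟩ 0,
  .sub 24 0,
  .pos 0,
  .mul 34 244,
  .add 232 0,
  .inv 0,
  .sub 234 0,
  .sub 15 0,
  .scale ⟨498440601600, 0, 0, 0⟩ 232,
  .scale ⟨0, 163363356672, 0, 0⟩ 232,
  .add 1 0,
  .scale ⟨673073463296, 0, 0, 0⟩ 233,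
  .add 1 0,
  .scale ⟨8588285247488, 0, 0, 0⟩ 239,
  .add 1 0,
  .scale ⟨8288851394560, 0, 0, 0⟩ 236,
  .add 1 0,
  .const ⟨2267317993472, 0, 0, 0⟩,
  .add 1 0,
  .add 15 258,
  .inv 0,
  .mul 265 16,
  .mul 1 0,
  .mul 0 15,
  .inv 273,
  .mul 264 0,
  .scale ⟨2199023255552, 0, 0, 0⟩ 0,
  .mul 0 3,
  .add 4 261,
  .inv 0,
  .mul 7 0,
  .mul 0 276,
  .mul 0 277,
  .inv 14,
  .mul 1 0,
  .mul 7 0,
  .lt 0 1099510579200,
  .add 264 44,
  .pos 0,
  .inv 0,
  .mul 0 0,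
  .sub 272 0,
  .mul 0 291,
  .sub 284 2,
  .mul 0 293,
  .scale ⟨0, 15578432, 0, 0⟩ 2,
  .const ⟨179761344, 0, 0, 0⟩,
  .add 1 0,
  .mul 5 0,
  .add 0 229,
  .mul 7 0,
  .add 0 236,
  .mul 9 0,
  .add 0 249,
  .mul 9 0,
  .neg 0,
  .exp 0,
  .sub 0 288,
  .add 0 289,
  .mul 291 0,
  .add 0 291,
  .pos 0,
  .mul 289 3,
  .add 0 293,
  .pos 0,
  .log 0,
  .add 70 301,
  .add 149 117,
  .sub 0 110,
  .sub 0 3,
  .scale ⟨549755813888, 0, 0, 0⟩ 317,
  .mul 78 0,
  .sub 2 0,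
  .exp 0,
  .scale ⟨0, 54663970816, 0, 0⟩ 247,
  .const ⟨114283446272, 0, 0, 0⟩,
  .add 1 0,
  .mul 250 0,
  .const ⟨0, 211445678080, 0, 0⟩,
  .add 1 0,
  .mul 253 0,
  .scale ⟨0, 30504321024, 0, 0⟩ 301,
  .scale ⟨0, 5313200914432, 0, 0⟩ 304,
  .add 1 0,
  .const ⟨0, 19391578112, 0, 0⟩,
  .add 1 0,
  .add 5 0,
  .mul 260 0,
  .scale ⟨0, 37261934592, 0, 0⟩ 308,
  .scale ⟨5716291223552, 0, 0, 0⟩ 311,
  .add 1 0,
  .const ⟨589733167104, 0, 0, 0⟩,
  .add 1 0,
  .add 5 0,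
  .mul 267 0,
  .scale ⟨406169583616, 0, 0, 0⟩ 315,
  .scale ⟨116867006464, 0, 0, 0⟩ 315,
  .add 1 0,
  .scale ⟨3650398388224, 0, 0, 0⟩ 320,
  .add 1 0,
  .scale ⟨5322099720192, 0, 0, 0⟩ 317,
  .add 1 0,
  .scale ⟨15302263767040, 0, 0, 0⟩ 317,
  .add 1 0,
  .const ⟨1335037329408, 0, 0, 0⟩,
  .add 1 0,
  .add 11 0,
  .inv 165,
  .mul 0 164,
  .scale ⟨1649267441664, 0, 0, 0⟩ 354,
  .neg 0,
  .exp 0,
  .scale ⟨109951188992, 0, 0, 0⟩ 0,
  .scale ⟨2199023255552, 0, 0, 0⟩ 0,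
  .mul 0 47,
  .scale ⟨879662989312, 0, 0, 0⟩ 119,
  .add 0 373,
  .inv 0,
  .mul 3 0,
  .const ⟨0, 0, 0, 0⟩,
  .mul 13 46,
  .mul 0 59,
  .mul 0 3,
  .mul 0 14,
  .rball 4 0,
  .sub 354 18,
  .mul 386 0,
  .sub 356 53,
  .mul 0 19,
  .mul 22 0,
  .add 3 0,
  .add 0 6,
  .lt 0 1099510579200]

set_option maxRecDepth 1000000 in
noncomputable def c_Z_0 {α : Type} (cst : Z → α) (add sub mul : α → α → α) (scale : Z → α → α)
    (neg inv exp log : α → α) (ok : α → Bool) (isPos : Nat → α → Bool) (isLt : α → Nat → Bool)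
    (ball : Nat → α → α) (rball : α → α → α) : List α → Bool
  | [x0, x1, x2, x3] =>
  isPos 3 x0 && (
  let v0 := scale ⟨33292438994944, 0, 0, 0⟩ x0; ok v0 && (
  let v1 := cst ⟨0, 15300552556544, 0, 0⟩; ok v1 && (
  let v2 := add v0 v1; ok v2 && (
  let v3 := mul v2 x0; ok v3 && (
  let v4 := cst ⟨2538325671936, 0, 0, 0⟩; ok v4 && (
  let v5 := add v3 v4; ok v5 && (
  let v6 := mul x1 v5; ok v6 && (
  let v7 := cst ⟨1099511627776, 0, 0, 0⟩; ok v7 && (
  let v8 := add v6 v7; ok v8 && (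
  let v9 := inv x0; ok v9 && (
  let v10 := mul x0 v8; ok v10 && (
  let v11 := scale ⟨2199023255552, 0, 0, 0⟩ v10; ok v11 && (
  let v12 := exp v10; ok v12 && (
  let v13 := neg v10; ok v13 && (
  let v14 := exp v13; ok v14 && (
  let v15 := mul v12 v12; ok v15 && (
  let v16 := mul v14 v14; ok v16 && (
  let v17 := mul v16 v16; ok v17 && (
  let v18 := sub v12 v14; ok v18 && (
  let v19 := add v12 v14; ok v19 && (
  let v20 := mul v18 v19; ok v20 && (
  let v21 := scale ⟨549755813888, 0, 0, 0⟩ v20; ok v21 && (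
  let v22 := mul v18 v18; ok v22 && (
  let v23 := mul v21 v9; ok v23 && (
  let v24 := scale ⟨2199023255552, 0, 0, 0⟩ v8; ok v24 && (
  let v25 := neg v24; ok v25 && (
  let v26 := exp v25; ok v26 && (
  let v27 := cst ⟨1099511627776, 0, 0, 0⟩; ok v27 && (
  let v28 := add v26 v27; ok v28 && (
  isPos 3 v28 && (
  let v29 := inv v28; ok v29 && (
  let v30 := mul v26 v29; ok v30 && (
  let v31 := add v15 v16; ok v31 && (
  let v32 := scale ⟨549755813888, 0, 0, 0⟩ v31; ok v32 && (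
  let v33 := cst ⟨154618822656, 0, 0, 0⟩; ok v33 && (
  let v34 := sub x0 v33; ok v34 && (
  let v35 := cst ⟨1623497637888, 0, 0, 0⟩; ok v35 && (
  let v36 := sub v8 v35; ok v36 && (
  let v37 := mul v36 v36; ok v37 && (
  let v38 := mul v37 v36; ok v38 && (
  let v39 := mul v34 v36; ok v39 && (
  let v40 := mul v34 v37; ok v40 && (
  let v41 := mul v34 v34; ok v41 && (
  let v42 := mul v41 v36; ok v42 && (
  let v43 := mul v41 v34; ok v43 && (
  let v44 := scale ⟨0, 594666048, 0, 0⟩ v36; ok v44 && (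
  let v45 := scale ⟨3336493952, 0, 0, 0⟩ v37; ok v45 && (
  let v46 := add v44 v45; ok v46 && (
  let v47 := scale ⟨1399373632, 0, 0, 0⟩ v38; ok v47 && (
  let v48 := add v46 v47; ok v48 && (
  let v49 := scale ⟨293241411776, 0, 0, 0⟩ v34; ok v49 && (
  let v50 := add v48 v49; ok v50 && (
  let v51 := scale ⟨0, 88416207360, 0, 0⟩ v39; ok v51 && (
  let v52 := add v50 v51; ok v52 && (
  let v53 := scale ⟨10426423872, 0, 0, 0⟩ v40; ok v53 && (
  let v54 := add v52 v53; ok v54 && (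
  let v55 := scale ⟨77459315456, 0, 0, 0⟩ v41; ok v55 && (
  let v56 := add v54 v55; ok v56 && (
  let v57 := scale ⟨1061676362240, 0, 0, 0⟩ v42; ok v57 && (
  let v58 := add v56 v57; ok v58 && (
  let v59 := scale ⟨18662184466368, 0, 0, 0⟩ v43; ok v59 && (
  let v60 := add v58 v59; ok v60 && (
  let v61 := cst ⟨618026960512, 0, 0, 0⟩; ok v61 && (
  let v62 := add v60 v61; ok v62 && (
  let v63 := scale ⟨0, 2125004096, 0, 0⟩ v36; ok v63 && (
  let v64 := scale ⟨23711680, 0, 0, 0⟩ v37; ok v64 && (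
  let v65 := add v63 v64; ok v65 && (
  let v66 := scale ⟨0, 76269569152, 0, 0⟩ v34; ok v66 && (
  let v67 := add v65 v66; ok v67 && (
  let v68 := scale ⟨0, 2734004672, 0, 0⟩ v39; ok v68 && (
  let v69 := add v67 v68; ok v69 && (
  let v70 := scale ⟨0, 202022537856, 0, 0⟩ v41; ok v70 && (
  let v71 := add v69 v70; ok v71 && (
  let v72 := cst ⟨0, 13931174016, 0, 0⟩; ok v72 && (
  let v73 := add v71 v72; ok v73 && (
  let v74 := scale ⟨330536768, 0, 0, 0⟩ v36; ok v74 && (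
  let v75 := scale ⟨0, 1666385728, 0, 0⟩ v34; ok v75 && (
  let v76 := add v74 v75; ok v76 && (
  let v77 := cst ⟨0, 255209152, 0, 0⟩; ok v77 && (
  let v78 := add v76 v77; ok v78 && (
  let v79 := scale ⟨0, 0, 1099511627776, 0⟩ x2; ok v79 && (
  let v80 := scale ⟨549755813888, 0, 0, 0⟩ v79; ok v80 && (
  let v81 := add v80 v27; ok v81 && (
  let v82 := inv v81; ok v82 && (
  let v83 := mul v79 v82; ok v83 && (
  let v84 := scale ⟨0, 143518281024, 0, 0⟩ v83; ok v84 && (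
  let v85 := cst ⟨0, 31769715968, 0, 0⟩; ok v85 && (
  let v86 := add v84 v85; ok v86 && (
  let v87 := mul v83 v86; ok v87 && (
  let v88 := cst ⟨278211310976, 0, 0, 0⟩; ok v88 && (
  let v89 := add v87 v88; ok v89 && (
  let v90 := mul v83 v89; ok v90 && (
  let v91 := cst ⟨0, 793506521600, 0, 0⟩; ok v91 && (
  let v92 := add v90 v91; ok v92 && (
  let v93 := mul v83 v92; ok v93 && (
  let v94 := scale ⟨0, 337265561216, 0, 0⟩ v36; ok v94 && (
  let v95 := scale ⟨0, 3171997818496, 0, 0⟩ v34; ok v95 && (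
  let v96 := add v94 v95; ok v96 && (
  let v97 := cst ⟨949195584384, 0, 0, 0⟩; ok v97 && (
  let v98 := add v96 v97; ok v98 && (
  let v99 := add v93 v98; ok v99 && (
  let v100 := mul v83 v99; ok v100 && (
  let v101 := scale ⟨594202939072, 0, 0, 0⟩ v36; ok v101 && (
  let v102 := scale ⟨10514962474688, 0, 0, 0⟩ v34; ok v102 && (
  let v103 := add v101 v102; ok v103 && (
  let v104 := cst ⟨0, 816902713408, 0, 0⟩; ok v104 && (
  let v105 := add v103 v104; ok v105 && (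
  let v106 := add v100 v105; ok v106 && (
  let v107 := mul v83 v106; ok v107 && (
  let v108 := scale ⟨0, 515062083520, 0, 0⟩ v36; ok v108 && (
  let v109 := scale ⟨0, 11623006838144, 0, 0⟩ v34; ok v109 && (
  let v110 := add v108 v109; ok v110 && (
  let v111 := cst ⟨92308405760, 0, 0, 0⟩; ok v111 && (
  let v112 := add v110 v111; ok v112 && (
  let v113 := add v107 v112; ok v113 && (
  let v114 := mul v83 v113; ok v114 && (
  let v115 := scale ⟨20771600192, 0, 0, 0⟩ v36; ok v115 && (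
  let v116 := scale ⟨0, 109128087680, 0, 0⟩ v37; ok v116 && (
  let v117 := add v115 v116; ok v117 && (
  let v118 := scale ⟨0, 10703428224, 0, 0⟩ v34; ok v118 && (
  let v119 := add v117 v118; ok v119 && (
  let v120 := scale ⟨0, 262279890688, 0, 0⟩ v39; ok v120 && (
  let v121 := add v119 v120; ok v121 && (
  let v122 := scale ⟨31867262540224, 0, 0, 0⟩ v41; ok v122 && (
  let v123 := add v121 v122; ok v123 && (
  let v124 := cst ⟨0, 91049434368, 0, 0⟩; ok v124 && (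
  let v125 := add v123 v124; ok v125 && (
  let v126 := add v114 v125; ok v126 && (
  let v127 := mul v83 v126; ok v127 && (
  let v128 := scale ⟨255206890304, 0, 0, 0⟩ v36; ok v128 && (
  let v129 := scale ⟨48254659328, 0, 0, 0⟩ v37; ok v129 && (
  let v130 := add v128 v129; ok v130 && (
  let v131 := scale ⟨0, 13873258007232, 0, 0⟩ v34; ok v131 && (
  let v132 := add v130 v131; ok v132 && (
  let v133 := scale ⟨0, 2470414439936, 0, 0⟩ v39; ok v133 && (
  let v134 := add v132 v133; ok v134 && (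
  let v135 := scale ⟨0, 66408386755776, 0, 0⟩ v41; ok v135 && (
  let v136 := add v134 v135; ok v136 && (
  let v137 := cst ⟨0, 387406483008, 0, 0⟩; ok v137 && (
  let v138 := add v136 v137; ok v138 && (
  let v139 := add v127 v138; ok v139 && (
  let v140 := mul v83 v139; ok v140 && (
  let v141 := scale ⟨0, 530507286080, 0, 0⟩ v36; ok v141 && (
  let v142 := scale ⟨0, 89932695360, 0, 0⟩ v37; ok v142 && (
  let v143 := add v141 v142; ok v143 && (
  let v144 := scale ⟨0, 1304065168320, 0, 0⟩ v34; ok v144 && (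
  let v145 := add v143 v144; ok v145 && (
  let v146 := scale ⟨0, 1597370384064, 0, 0⟩ v39; ok v146 && (
  let v147 := add v145 v146; ok v147 && (
  let v148 := scale ⟨12624974727040, 0, 0, 0⟩ v41; ok v148 && (
  let v149 := add v147 v148; ok v149 && (
  let v150 := cst ⟨3526641754112, 0, 0, 0⟩; ok v150 && (
  let v151 := add v149 v150; ok v151 && (
  let v152 := add v140 v151; ok v152 && (
  let v153 := mul v83 v152; ok v153 && (
  let v154 := scale ⟨558864633920, 0, 0, 0⟩ v36; ok v154 && (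
  let v155 := scale ⟨0, 112062954368, 0, 0⟩ v37; ok v155 && (
  let v156 := add v154 v155; ok v156 && (
  let v157 := scale ⟨2949282048, 0, 0, 0⟩ v38; ok v157 && (
  let v158 := add v156 v157; ok v158 && (
  let v159 := scale ⟨5356231329088, 0, 0, 0⟩ v34; ok v159 && (
  let v160 := add v158 v159; ok v160 && (
  let v161 := scale ⟨1289511224192, 0, 0, 0⟩ v39; ok v161 && (
  let v162 := add v160 v161; ok v162 && (
  let v163 := scale ⟨0, 1130085825536, 0, 0⟩ v40; ok v163 && (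
  let v164 := add v162 v163; ok v164 && (
  let v165 := scale ⟨0, 10722031711104, 0, 0⟩ v41; ok v165 && (
  let v166 := add v164 v165; ok v166 && (
  let v167 := scale ⟨0, 5744559240832, 0, 0⟩ v42; ok v167 && (
  let v168 := add v166 v167; ok v168 && (
  let v169 := scale ⟨0, 33077843126592, 0, 0⟩ v43; ok v169 && (
  let v170 := add v168 v169; ok v170 && (
  let v171 := cst ⟨909282171328, 0, 0, 0⟩; ok v171 && (
  let v172 := add v170 v171; ok v172 && (
  let v173 := mul v172 v8; ok v173 && (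
  let v174 := add v153 v173; ok v174 && (
  let v175 := mul x0 x0; ok v175 && (
  let v176 := scale ⟨5703716569088, 0, 0, 0⟩ v175; ok v176 && (
  let v177 := cst ⟨1726576852992, 0, 0, 0⟩; ok v177 && (
  let v178 := add v176 v177; ok v178 && (
  let v179 := scale ⟨4398046511104, 0, 0, 0⟩ v8; ok v179 && (
  let v180 := mul v83 v178; ok v180 && (
  let v181 := scale ⟨4398046511104, 0, 0, 0⟩ v180; ok v181 && (
  let v182 := add v179 v181; ok v182 && (
  let v183 := scale ⟨0, 551558971392, 0, 0⟩ v36; ok v183 && (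
  let v184 := scale ⟨0, 144768368640, 0, 0⟩ v37; ok v184 && (
  let v185 := add v183 v184; ok v185 && (
  let v186 := scale ⟨2569607643136, 0, 0, 0⟩ v38; ok v186 && (
  let v187 := add v185 v186; ok v187 && (
  let v188 := scale ⟨1620948746240, 0, 0, 0⟩ v34; ok v188 && (
  let v189 := add v187 v188; ok v189 && (
  let v190 := scale ⟨5097332604928, 0, 0, 0⟩ v39; ok v190 && (
  let v191 := add v189 v190; ok v191 && (
  let v192 := cst ⟨413299179520, 0, 0, 0⟩; ok v192 && (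
  let v193 := add v191 v192; ok v193 && (
  let v194 := scale ⟨3161095929856, 0, 0, 0⟩ v11; ok v194 && (
  let v195 := neg v194; ok v195 && (
  let v196 := exp v195; ok v196 && (
  let v197 := mul v193 v196; ok v197 && (
  let v198 := mul v197 v182; ok v198 && (
  let v199 := scale ⟨879662989312, 0, 0, 0⟩ v182; ok v199 && (
  let v200 := add v199 v27; ok v200 && (
  isPos 3 v200 && (
  let v201 := inv v200; ok v201 && (
  let v202 := mul v198 v201; ok v202 && (
  let v203 := neg v174; ok v203 && (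
  let v204 := exp v203; ok v204 && (
  let v205 := add v204 v27; ok v205 && (
  isPos 3 v205 && (
  let v206 := log v205; ok v206 && (
  let v207 := mul v202 x3; ok v207 && (
  let v208 := sub v27 v207; ok v208 && (
  let v209 := log v208; ok v209 && (
  let v210 := mul v204 v207; ok v210 && (
  let v211 := add v210 v27; ok v211 && (
  isPos 3 v211 && (
  let v212 := log v211; ok v212 && (
  let v213 := scale ⟨274877906944, 0, 0, 0⟩ v22; ok v213 && (
  let v214 := log v28; ok v214 && (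
  let v215 := add v8 v214; ok v215 && (
  let v216 := sub v206 v212; ok v216 && (
  let v217 := sub v216 v215; ok v217 && (
  let v218 := mul v217 x0; ok v218 && (
  let v219 := exp v218; ok v219 && (
  let v220 := sub v212 v209; ok v220 && (
  let v221 := add v220 v174; ok v221 && (
  let v222 := mul v221 x0; ok v222 && (
  let v223 := exp v222; ok v223 && (
  let v224 := mul x0 v178; ok v224 && (
  let v225 := scale ⟨1649267441664, 0, 0, 0⟩ v213; ok v225 && (
  let v226 := add v225 v27; ok v226 && (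
  let v227 := mul v224 v226; ok v227 && (
  let v228 := mul x2 v227; ok v228 && (
  let v229 := scale ⟨0, 0, 1099511627776, 0⟩ v228; ok v229 && (
  let v230 := mul v229 v229; ok v230 && (
  let v231 := sub v213 v230; ok v231 && (
  let v232 := mul v219 v219; ok v232 && (
  let v233 := mul v232 v231; ok v233 && (
  let v234 := scale ⟨4398046511104, 0, 0, 0⟩ v233; ok v234 && (
  let v235 := sub v27 v234; ok v235 && (
  let v236 := log v235; ok v236 && (
  let v237 := scale ⟨549755813888, 0, 0, 0⟩ v236; ok v237 && (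
  let v238 := exp v237; ok v238 && (
  let v239 := mul v219 v229; ok v239 && (
  let v240 := mul v239 v238; ok v240 && (
  let v241 := mul v213 v223; ok v241 && (
  let v242 := scale ⟨2199023255552, 0, 0, 0⟩ v231; ok v242 && (
  let v243 := add v241 v242; ok v243 && (
  let v244 := mul v232 v243; ok v244 && (
  let v245 := add v244 v240; ok v245 && (
  let v246 := mul v223 v245; ok v246 && (
  let v247 := scale ⟨4398046511104, 0, 0, 0⟩ v246; ok v247 && (
  let v248 := add v247 v27; ok v248 && (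
  let v249 := log v248; ok v249 && (
  let v250 := scale ⟨549755813888, 0, 0, 0⟩ v249; ok v250 && (
  let v251 := exp v250; ok v251 && (
  let v252 := sub v251 v32; ok v252 && (
  let v253 := mul v23 v23; ok v253 && (
  let v254 := cst ⟨28141699465216, 0, 0, 0⟩; ok v254 && (
  let v255 := add v253 v254; ok v255 && (
  isPos 3 v255 && (
  let v256 := inv v255; ok v256 && (
  let v257 := mul v252 v9; ok v257 && (
  let v258 := mul v257 v257; ok v258 && (
  let v259 := sub v258 v253; ok v259 && (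
  let v260 := mul v259 v256; ok v260 && (
  isLt v260 1099510579200 && (
  let v261 := mul v219 v229; ok v261 && (
  let v262 := scale ⟨2199023255552, 0, 0, 0⟩ v261; ok v262 && (
  let v263 := sub v238 v262; ok v263 && (
  isPos 3 v263 && (
  let v264 := mul v229 v19; ok v264 && (
  let v265 := add v32 v264; ok v265 && (
  let v266 := inv v265; ok v266 && (
  let v267 := sub v32 v266; ok v267 && (
  let v268 := sub v252 v267; ok v268 && (
  let v269 := scale ⟨498440601600, 0, 0, 0⟩ v36; ok v269 && (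
  let v270 := scale ⟨0, 163363356672, 0, 0⟩ v37; ok v270 && (
  let v271 := add v269 v270; ok v271 && (
  let v272 := scale ⟨673073463296, 0, 0, 0⟩ v38; ok v272 && (
  let v273 := add v271 v272; ok v273 && (
  let v274 := scale ⟨8588285247488, 0, 0, 0⟩ v34; ok v274 && (
  let v275 := add v273 v274; ok v275 && (
  let v276 := scale ⟨8288851394560, 0, 0, 0⟩ v39; ok v276 && (
  let v277 := add v275 v276; ok v277 && (
  let v278 := cst ⟨2267317993472, 0, 0, 0⟩; ok v278 && (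
  let v279 := add v277 v278; ok v279 && (
  let v280 := add v264 v21; ok v280 && (
  let v281 := inv v280; ok v281 && (
  let v282 := mul v16 v265; ok v282 && (
  let v283 := mul v281 v282; ok v283 && (
  let v284 := mul v283 v268; ok v284 && (
  let v285 := inv v11; ok v285 && (
  let v286 := mul v21 v285; ok v286 && (
  let v287 := scale ⟨2199023255552, 0, 0, 0⟩ v286; ok v287 && (
  let v288 := mul v287 v284; ok v288 && (
  let v289 := add v284 v27; ok v289 && (
  let v290 := inv v289; ok v290 && (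
  let v291 := mul v283 v290; ok v291 && (
  let v292 := mul v291 v15; ok v292 && (
  let v293 := mul v292 v15; ok v293 && (
  let v294 := inv v279; ok v294 && (
  let v295 := mul v293 v294; ok v295 && (
  let v296 := mul v288 v295; ok v296 && (
  isLt v296 1099510579200 && (
  let v297 := add v32 v252; ok v297 && (
  isPos 3 v297 && (
  let v298 := inv v297; ok v298 && (
  let v299 := mul v298 v298; ok v299 && (
  let v300 := sub v27 v299; ok v300 && (
  let v301 := mul v300 v9; ok v301 && (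
  let v302 := sub v17 v299; ok v302 && (
  let v303 := mul v302 v9; ok v303 && (
  let v304 := scale ⟨0, 15578432, 0, 0⟩ v301; ok v304 && (
  let v305 := cst ⟨179761344, 0, 0, 0⟩; ok v305 && (
  let v306 := add v304 v305; ok v306 && (
  let v307 := mul v301 v306; ok v307 && (
  let v308 := add v307 v78; ok v308 && (
  let v309 := mul v301 v308; ok v309 && (
  let v310 := add v309 v73; ok v310 && (
  let v311 := mul v301 v310; ok v311 && (
  let v312 := add v311 v62; ok v312 && (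
  let v313 := mul v303 v312; ok v313 && (
  let v314 := neg v313; ok v314 && (
  let v315 := exp v314; ok v315 && (
  let v316 := sub v315 v27; ok v316 && (
  let v317 := add v316 v27; ok v317 && (
  let v318 := mul v26 v317; ok v318 && (
  let v319 := add v318 v27; ok v319 && (
  isPos 3 v319 && (
  let v320 := mul v30 v316; ok v320 && (
  let v321 := add v320 v27; ok v321 && (
  isPos 3 v321 && (
  let v322 := log v321; ok v322 && (
  let v323 := add v252 v21; ok v323 && (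
  let v324 := add v174 v206; ok v324 && (
  let v325 := sub v324 v214; ok v325 && (
  let v326 := sub v325 v322; ok v326 && (
  let v327 := scale ⟨549755813888, 0, 0, 0⟩ v9; ok v327 && (
  let v328 := mul v249 v327; ok v328 && (
  let v329 := sub v326 v328; ok v329 && (
  let v330 := exp v329; ok v330 && (
  let v331 := scale ⟨0, 54663970816, 0, 0⟩ v83; ok v331 && (
  let v332 := cst ⟨114283446272, 0, 0, 0⟩; ok v332 && (
  let v333 := add v331 v332; ok v333 && (
  let v334 := mul v83 v333; ok v334 && (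
  let v335 := cst ⟨0, 211445678080, 0, 0⟩; ok v335 && (
  let v336 := add v334 v335; ok v336 && (
  let v337 := mul v83 v336; ok v337 && (
  let v338 := scale ⟨0, 30504321024, 0, 0⟩ v36; ok v338 && (
  let v339 := scale ⟨0, 5313200914432, 0, 0⟩ v34; ok v339 && (
  let v340 := add v338 v339; ok v340 && (
  let v341 := cst ⟨0, 19391578112, 0, 0⟩; ok v341 && (
  let v342 := add v340 v341; ok v342 && (
  let v343 := add v337 v342; ok v343 && (
  let v344 := mul v83 v343; ok v344 && (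
  let v345 := scale ⟨0, 37261934592, 0, 0⟩ v36; ok v345 && (
  let v346 := scale ⟨5716291223552, 0, 0, 0⟩ v34; ok v346 && (
  let v347 := add v345 v346; ok v347 && (
  let v348 := cst ⟨589733167104, 0, 0, 0⟩; ok v348 && (
  let v349 := add v347 v348; ok v349 && (
  let v350 := add v344 v349; ok v350 && (
  let v351 := mul v83 v350; ok v351 && (
  let v352 := scale ⟨406169583616, 0, 0, 0⟩ v36; ok v352 && (
  let v353 := scale ⟨116867006464, 0, 0, 0⟩ v37; ok v353 && (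
  let v354 := add v352 v353; ok v354 && (
  let v355 := scale ⟨3650398388224, 0, 0, 0⟩ v34; ok v355 && (
  let v356 := add v354 v355; ok v356 && (
  let v357 := scale ⟨5322099720192, 0, 0, 0⟩ v39; ok v357 && (
  let v358 := add v356 v357; ok v358 && (
  let v359 := scale ⟨15302263767040, 0, 0, 0⟩ v41; ok v359 && (
  let v360 := add v358 v359; ok v360 && (
  let v361 := cst ⟨1335037329408, 0, 0, 0⟩; ok v361 && (
  let v362 := add v360 v361; ok v362 && (
  let v363 := add v351 v362; ok v363 && (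
  let v364 := inv v198; ok v364 && (
  let v365 := mul v364 v200; ok v365 && (
  let v366 := scale ⟨1649267441664, 0, 0, 0⟩ v11; ok v366 && (
  let v367 := neg v366; ok v367 && (
  let v368 := exp v367; ok v368 && (
  let v369 := scale ⟨109951188992, 0, 0, 0⟩ v368; ok v369 && (
  let v370 := scale ⟨2199023255552, 0, 0, 0⟩ v369; ok v370 && (
  let v371 := mul v370 v323; ok v371 && (
  let v372 := scale ⟨879662989312, 0, 0, 0⟩ v252; ok v372 && (
  let v373 := add v372 x0; ok v373 && (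
  let v374 := inv v373; ok v374 && (
  let v375 := mul v371 v374; ok v375 && (
  let v376 := cst ⟨0, 0, 0, 0⟩; ok v376 && (
  let v377 := mul v363 v330; ok v377 && (
  let v378 := mul v377 v318; ok v378 && (
  let v379 := mul v378 v375; ok v379 && (
  let v380 := mul v379 v365; ok v380 && (
  let v381 := rball v376 v380; ok v381 && (
  let v382 := sub v27 v363; ok v382 && (
  let v383 := mul x3 v382; ok v383 && (
  let v384 := sub v27 v330; ok v384 && (
  let v385 := mul v384 v365; ok v385 && (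
  let v386 := mul v363 v385; ok v386 && (
  let v387 := add v383 v386; ok v387 && (
  let v388 := add v387 v381; ok v388 && (
  isLt v388 1099510579200 && (
  true))))))))))))))))))))))))))))))))))))))))))))))))))))))))))))))))))))))))))))))))))))))))))))))))))))))))))))))))))))))))))))))))))))))))))))))))))))))))))))))))))))))))))))))))))))))))))))))))))))))))))))))))))))))))))))))))))))))))))))))))))))))))))))))))))))))))))))))))))))))))))))))))))))))))))))))))))))))))))))))))))))))))))))))))))))))))))))))))))))))))))))))))))))))))))))))))))))))))))))))))))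
  | _ => false

set_option maxRecDepth 1000000 in
theorem c_Z_0_eq (X : XOps) (m : List X.O.α)
    (h : c_Z_0 X.O.cst X.O.add X.O.sub X.O.mul X.O.scale X.O.neg X.O.inv X.O.exp X.O.log X.O.ok
      X.O.isPos X.O.isLt X.ball X.rball m = true) :
    runX X 3 p_Z_0 m = true := by
  match m, h with
  | [x0, x1, x2, x3], h => exact h

abbrev gZ : List (List Op) := [p_Z_0]

noncomputable abbrev kZ : List (List xE.O.α → Bool) := [c_Z_0 xE.O.cst xE.O.add xE.O.sub xE.O.mul xE.O.scale xE.O.neg xE.O.inv xE.O.exp xE.O.log xE.O.ok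
      xE.O.isPos xE.O.isLt xE.ball xE.rball]

theorem kZ_eq : List.Forall₂ (fun (ops : List Op) (chk : List xE.O.α → Bool) =>
    ∀ m, chk m = true → runX xE 3 ops m = true) gZ kZ :=
  List.Forall₂.cons (c_Z_0_eq xE) List.Forall₂.nil

theorem gZ_eq : gZ = [comp (P0 tab) ρ4 4] := by decide +kernel

def p_T_0 : List Op := [
  .pos 0,
  .scale ⟨33292438994944, 0, 0, 0⟩ 0,
  .const ⟨0, 15300552556544, 0, 0⟩,
  .add 1 0,
  .mul 0 3,
  .const ⟨2538325671936, 0, 0, 0⟩,
  .add 1 0,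
  .mul 7 0,
  .const ⟨1099511627776, 0, 0, 0⟩,
  .add 1 0,
  .inv 9,
  .mul 10 1,
  .scale ⟨2199023255552, 0, 0, 0⟩ 0,
  .exp 1,
  .neg 2,
  .exp 0,
  .mul 2 2,
  .mul 1 1,
  .mul 0 0,
  .sub 5 3,
  .add 6 4,
  .mul 1 0,
  .scale ⟨549755813888, 0, 0, 0⟩ 0,
  .mul 3 3,
  .mul 1 13,
  .scale ⟨2199023255552, 0, 0, 0⟩ 15,
  .neg 0,
  .exp 0,
  .const ⟨1099511627776, 0, 0, 0⟩,
  .add 1 0,
  .pos 0,
  .inv 0,
  .mul 3 0,
  .add 15 14,
  .scale ⟨549755813888, 0, 0, 0⟩ 0,
  .const ⟨154618822656, 0, 0, 0⟩,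
  .sub 34 0,
  .const ⟨1623497637888, 0, 0, 0⟩,
  .sub 27 0,
  .mul 0 0,
  .mul 0 1,
  .mul 4 2,
  .mul 5 2,
  .mul 6 6,
  .mul 0 5,
  .mul 1 8,
  .scale ⟨0, 0, 1099511627776, 0⟩ 16,
  .scale ⟨549755813888, 0, 0, 0⟩ 0,
  .add 0 18,
  .inv 0,
  .mul 3 0,
  .scale ⟨0, 143518281024, 0, 0⟩ 0,
  .const ⟨0, 31769715968, 0, 0⟩,
  .add 1 0,
  .mul 3 0,
  .const ⟨278211310976, 0, 0, 0⟩,
  .add 1 0,
  .mul 6 0,
  .const ⟨0, 793506521600, 0, 0⟩,
  .add 1 0,
  .mul 9 0,
  .scale ⟨0, 337265561216, 0, 0⟩ 22,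
  .scale ⟨0, 3171997818496, 0, 0⟩ 25,
  .add 1 0,
  .const ⟨949195584384, 0, 0, 0⟩,
  .add 1 0,
  .add 5 0,
  .mul 16 0,
  .scale ⟨594202939072, 0, 0, 0⟩ 29,
  .scale ⟨10514962474688, 0, 0, 0⟩ 32,
  .add 1 0,
  .const ⟨0, 816902713408, 0, 0⟩,
  .add 1 0,
  .add 5 0,
  .mul 23 0,
  .scale ⟨0, 515062083520, 0, 0⟩ 36,
  .scale ⟨0, 11623006838144, 0, 0⟩ 39,
  .add 1 0,
  .const ⟨92308405760, 0, 0, 0⟩,
  .add 1 0,
  .add 5 0,
  .mul 30 0,
  .scale ⟨20771600192, 0, 0, 0⟩ 43,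
  .scale ⟨0, 109128087680, 0, 0⟩ 43,
  .add 1 0,
  .scale ⟨0, 10703428224, 0, 0⟩ 48,
  .add 1 0,
  .scale ⟨0, 262279890688, 0, 0⟩ 45,
  .add 1 0,
  .scale ⟨31867262540224, 0, 0, 0⟩ 45,
  .add 1 0,
  .const ⟨0, 91049434368, 0, 0⟩,
  .add 1 0,
  .add 11 0,
  .mul 43 0,
  .scale ⟨255206890304, 0, 0, 0⟩ 56,
  .scale ⟨48254659328, 0, 0, 0⟩ 56,
  .add 1 0,
  .scale ⟨0, 13873258007232, 0, 0⟩ 61,
  .add 1 0,
  .scale ⟨0, 2470414439936, 0, 0⟩ 58,
  .add 1 0,
  .scale ⟨0, 66408386755776, 0, 0⟩ 58,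
  .add 1 0,
  .const ⟨0, 387406483008, 0, 0⟩,
  .add 1 0,
  .add 11 0,
  .mul 56 0,
  .scale ⟨0, 530507286080, 0, 0⟩ 69,
  .scale ⟨0, 89932695360, 0, 0⟩ 69,
  .add 1 0,
  .scale ⟨0, 1304065168320, 0, 0⟩ 74,
  .add 1 0,
  .scale ⟨0, 1597370384064, 0, 0⟩ 71,
  .add 1 0,
  .scale ⟨12624974727040, 0, 0, 0⟩ 71,
  .add 1 0,
  .const ⟨3526641754112, 0, 0, 0⟩,
  .add 1 0,
  .add 11 0,
  .mul 69 0,
  .scale ⟨558864633920, 0, 0, 0⟩ 82,
  .scale ⟨0, 112062954368, 0, 0⟩ 82,
  .add 1 0,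
  .scale ⟨2949282048, 0, 0, 0⟩ 83,
  .add 1 0,
  .scale ⟨5356231329088, 0, 0, 0⟩ 89,
  .add 1 0,
  .scale ⟨1289511224192, 0, 0, 0⟩ 86,
  .add 1 0,
  .scale ⟨0, 1130085825536, 0, 0⟩ 87,
  .add 1 0,
  .scale ⟨0, 10722031711104, 0, 0⟩ 88,
  .add 1 0,
  .scale ⟨0, 5744559240832, 0, 0⟩ 89,
  .add 1 0,
  .scale ⟨0, 33077843126592, 0, 0⟩ 90,
  .add 1 0,
  .const ⟨909282171328, 0, 0, 0⟩,
  .add 1 0,
  .mul 0 129,
  .add 20 0,
  .mul 140 140,
  .scale ⟨5703716569088, 0, 0, 0⟩ 0,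
  .const ⟨1726576852992, 0, 0, 0⟩,
  .add 1 0,
  .scale ⟨4398046511104, 0, 0, 0⟩ 135,
  .mul 96 1,
  .scale ⟨4398046511104, 0, 0, 0⟩ 0,
  .add 2 0,
  .scale ⟨0, 551558971392, 0, 0⟩ 111,
  .scale ⟨0, 144768368640, 0, 0⟩ 111,
  .add 1 0,
  .scale ⟨2569607643136, 0, 0, 0⟩ 112,
  .add 1 0,
  .scale ⟨1620948746240, 0, 0, 0⟩ 118,
  .add 1 0,
  .scale ⟨5097332604928, 0, 0, 0⟩ 115,
  .add 1 0,
  .const ⟨413299179520, 0, 0, 0⟩,
  .add 1 0,
  .scale ⟨3161095929856, 0, 0, 0⟩ 147,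
  .neg 0,
  .exp 0,
  .mul 3 0,
  .mul 0 15,
  .scale ⟨879662989312, 0, 0, 0⟩ 16,
  .add 0 137,
  .pos 0,
  .inv 0,
  .mul 3 0,
  .neg 28,
  .exp 0,
  .add 0 142,
  .pos 0,
  .log 0,
  .mul 4 174,
  .sub 145 0,
  .log 0,
  .mul 5 2,
  .add 0 148,
  .pos 0,
  .log 0,
  .scale ⟨274877906944, 0, 0, 0⟩ 155,
  .log 150,
  .add 171 0,
  .sub 9 3,
  .sub 0 1,
  .mul 0 183,
  .exp 0,
  .sub 7 10,
  .add 0 46,
  .mul 0 187,
  .exp 0,
  .mul 189 45,
  .scale ⟨1649267441664, 0, 0, 0⟩ 11,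
  .add 0 163,
  .mul 2 0,
  .mul 165 0,
  .scale ⟨0, 0, 1099511627776, 0⟩ 0,
  .mul 0 0,
  .sub 17 0,
  .mul 12 12,
  .mul 0 1,
  .scale ⟨4398046511104, 0, 0, 0⟩ 0,
  .sub 172 0,
  .log 0,
  .scale ⟨549755813888, 0, 0, 0⟩ 0,
  .exp 0,
  .mul 19 9,
  .mul 0 1,
  .scale ⟨4398046511104, 0, 0, 0⟩ 8,
  .scale ⟨2199023255552, 0, 0, 0⟩ 11,
  .sub 0 29,
  .mul 2 0,
  .add 0 182,
  .scale ⟨4398046511104, 0, 0, 0⟩ 5,
  .sub 1 0,
  .log 0,
  .const ⟨549755813888, 0, 0, 0⟩,
  .sub 37 43,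
  .scale ⟨549755813888, 0, 0, 0⟩ 206,
  .mul 3 0,
  .add 2 0,
  .exp 0,
  .sub 5 0,
  .pos 0]

set_option maxRecDepth 1000000 in
noncomputable def c_T_0 {α : Type} (cst : Z → α) (add sub mul : α → α → α) (scale : Z → α → α)
    (neg inv exp log : α → α) (ok : α → Bool) (isPos : Nat → α → Bool) (isLt : α → Nat → Bool)
    (ball : Nat → α → α) (rball : α → α → α) : List α → Bool
  | [x0, x1, x2] =>
  isPos 2 x0 && (
  let v0 := scale ⟨33292438994944, 0, 0, 0⟩ x0; ok v0 && (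
  let v1 := cst ⟨0, 15300552556544, 0, 0⟩; ok v1 && (
  let v2 := add v0 v1; ok v2 && (
  let v3 := mul v2 x0; ok v3 && (
  let v4 := cst ⟨2538325671936, 0, 0, 0⟩; ok v4 && (
  let v5 := add v3 v4; ok v5 && (
  let v6 := mul x1 v5; ok v6 && (
  let v7 := cst ⟨1099511627776, 0, 0, 0⟩; ok v7 && (
  let v8 := add v6 v7; ok v8 && (
  let v9 := inv x0; ok v9 && (
  let v10 := mul x0 v8; ok v10 && (
  let v11 := scale ⟨2199023255552, 0, 0, 0⟩ v10; ok v11 && (
  let v12 := exp v10; ok v12 && (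
  let v13 := neg v10; ok v13 && (
  let v14 := exp v13; ok v14 && (
  let v15 := mul v12 v12; ok v15 && (
  let v16 := mul v14 v14; ok v16 && (
  let v17 := mul v16 v16; ok v17 && (
  let v18 := sub v12 v14; ok v18 && (
  let v19 := add v12 v14; ok v19 && (
  let v20 := mul v18 v19; ok v20 && (
  let v21 := scale ⟨549755813888, 0, 0, 0⟩ v20; ok v21 && (
  let v22 := mul v18 v18; ok v22 && (
  let v23 := mul v21 v9; ok v23 && (
  let v24 := scale ⟨2199023255552, 0, 0, 0⟩ v8; ok v24 && (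
  let v25 := neg v24; ok v25 && (
  let v26 := exp v25; ok v26 && (
  let v27 := cst ⟨1099511627776, 0, 0, 0⟩; ok v27 && (
  let v28 := add v26 v27; ok v28 && (
  isPos 2 v28 && (
  let v29 := inv v28; ok v29 && (
  let v30 := mul v26 v29; ok v30 && (
  let v31 := add v15 v16; ok v31 && (
  let v32 := scale ⟨549755813888, 0, 0, 0⟩ v31; ok v32 && (
  let v33 := cst ⟨154618822656, 0, 0, 0⟩; ok v33 && (
  let v34 := sub x0 v33; ok v34 && (
  let v35 := cst ⟨1623497637888, 0, 0, 0⟩; ok v35 && (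
  let v36 := sub v8 v35; ok v36 && (
  let v37 := mul v36 v36; ok v37 && (
  let v38 := mul v37 v36; ok v38 && (
  let v39 := mul v34 v36; ok v39 && (
  let v40 := mul v34 v37; ok v40 && (
  let v41 := mul v34 v34; ok v41 && (
  let v42 := mul v41 v36; ok v42 && (
  let v43 := mul v41 v34; ok v43 && (
  let v44 := scale ⟨0, 0, 1099511627776, 0⟩ v27; ok v44 && (
  let v45 := scale ⟨549755813888, 0, 0, 0⟩ v44; ok v45 && (
  let v46 := add v45 v27; ok v46 && (
  let v47 := inv v46; ok v47 && (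
  let v48 := mul v44 v47; ok v48 && (
  let v49 := scale ⟨0, 143518281024, 0, 0⟩ v48; ok v49 && (
  let v50 := cst ⟨0, 31769715968, 0, 0⟩; ok v50 && (
  let v51 := add v49 v50; ok v51 && (
  let v52 := mul v48 v51; ok v52 && (
  let v53 := cst ⟨278211310976, 0, 0, 0⟩; ok v53 && (
  let v54 := add v52 v53; ok v54 && (
  let v55 := mul v48 v54; ok v55 && (
  let v56 := cst ⟨0, 793506521600, 0, 0⟩; ok v56 && (
  let v57 := add v55 v56; ok v57 && (
  let v58 := mul v48 v57; ok v58 && (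
  let v59 := scale ⟨0, 337265561216, 0, 0⟩ v36; ok v59 && (
  let v60 := scale ⟨0, 3171997818496, 0, 0⟩ v34; ok v60 && (
  let v61 := add v59 v60; ok v61 && (
  let v62 := cst ⟨949195584384, 0, 0, 0⟩; ok v62 && (
  let v63 := add v61 v62; ok v63 && (
  let v64 := add v58 v63; ok v64 && (
  let v65 := mul v48 v64; ok v65 && (
  let v66 := scale ⟨594202939072, 0, 0, 0⟩ v36; ok v66 && (
  let v67 := scale ⟨10514962474688, 0, 0, 0⟩ v34; ok v67 && (
  let v68 := add v66 v67; ok v68 && (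
  let v69 := cst ⟨0, 816902713408, 0, 0⟩; ok v69 && (
  let v70 := add v68 v69; ok v70 && (
  let v71 := add v65 v70; ok v71 && (
  let v72 := mul v48 v71; ok v72 && (
  let v73 := scale ⟨0, 515062083520, 0, 0⟩ v36; ok v73 && (
  let v74 := scale ⟨0, 11623006838144, 0, 0⟩ v34; ok v74 && (
  let v75 := add v73 v74; ok v75 && (
  let v76 := cst ⟨92308405760, 0, 0, 0⟩; ok v76 && (
  let v77 := add v75 v76; ok v77 && (
  let v78 := add v72 v77; ok v78 && (
  let v79 := mul v48 v78; ok v79 && (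
  let v80 := scale ⟨20771600192, 0, 0, 0⟩ v36; ok v80 && (
  let v81 := scale ⟨0, 109128087680, 0, 0⟩ v37; ok v81 && (
  let v82 := add v80 v81; ok v82 && (
  let v83 := scale ⟨0, 10703428224, 0, 0⟩ v34; ok v83 && (
  let v84 := add v82 v83; ok v84 && (
  let v85 := scale ⟨0, 262279890688, 0, 0⟩ v39; ok v85 && (
  let v86 := add v84 v85; ok v86 && (
  let v87 := scale ⟨31867262540224, 0, 0, 0⟩ v41; ok v87 && (
  let v88 := add v86 v87; ok v88 && (
  let v89 := cst ⟨0, 91049434368, 0, 0⟩; ok v89 && (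
  let v90 := add v88 v89; ok v90 && (
  let v91 := add v79 v90; ok v91 && (
  let v92 := mul v48 v91; ok v92 && (
  let v93 := scale ⟨255206890304, 0, 0, 0⟩ v36; ok v93 && (
  let v94 := scale ⟨48254659328, 0, 0, 0⟩ v37; ok v94 && (
  let v95 := add v93 v94; ok v95 && (
  let v96 := scale ⟨0, 13873258007232, 0, 0⟩ v34; ok v96 && (
  let v97 := add v95 v96; ok v97 && (
  let v98 := scale ⟨0, 2470414439936, 0, 0⟩ v39; ok v98 && (
  let v99 := add v97 v98; ok v99 && (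
  let v100 := scale ⟨0, 66408386755776, 0, 0⟩ v41; ok v100 && (
  let v101 := add v99 v100; ok v101 && (
  let v102 := cst ⟨0, 387406483008, 0, 0⟩; ok v102 && (
  let v103 := add v101 v102; ok v103 && (
  let v104 := add v92 v103; ok v104 && (
  let v105 := mul v48 v104; ok v105 && (
  let v106 := scale ⟨0, 530507286080, 0, 0⟩ v36; ok v106 && (
  let v107 := scale ⟨0, 89932695360, 0, 0⟩ v37; ok v107 && (
  let v108 := add v106 v107; ok v108 && (
  let v109 := scale ⟨0, 1304065168320, 0, 0⟩ v34; ok v109 && (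
  let v110 := add v108 v109; ok v110 && (
  let v111 := scale ⟨0, 1597370384064, 0, 0⟩ v39; ok v111 && (
  let v112 := add v110 v111; ok v112 && (
  let v113 := scale ⟨12624974727040, 0, 0, 0⟩ v41; ok v113 && (
  let v114 := add v112 v113; ok v114 && (
  let v115 := cst ⟨3526641754112, 0, 0, 0⟩; ok v115 && (
  let v116 := add v114 v115; ok v116 && (
  let v117 := add v105 v116; ok v117 && (
  let v118 := mul v48 v117; ok v118 && (
  let v119 := scale ⟨558864633920, 0, 0, 0⟩ v36; ok v119 && (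
  let v120 := scale ⟨0, 112062954368, 0, 0⟩ v37; ok v120 && (
  let v121 := add v119 v120; ok v121 && (
  let v122 := scale ⟨2949282048, 0, 0, 0⟩ v38; ok v122 && (
  let v123 := add v121 v122; ok v123 && (
  let v124 := scale ⟨5356231329088, 0, 0, 0⟩ v34; ok v124 && (
  let v125 := add v123 v124; ok v125 && (
  let v126 := scale ⟨1289511224192, 0, 0, 0⟩ v39; ok v126 && (
  let v127 := add v125 v126; ok v127 && (
  let v128 := scale ⟨0, 1130085825536, 0, 0⟩ v40; ok v128 && (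
  let v129 := add v127 v128; ok v129 && (
  let v130 := scale ⟨0, 10722031711104, 0, 0⟩ v41; ok v130 && (
  let v131 := add v129 v130; ok v131 && (
  let v132 := scale ⟨0, 5744559240832, 0, 0⟩ v42; ok v132 && (
  let v133 := add v131 v132; ok v133 && (
  let v134 := scale ⟨0, 33077843126592, 0, 0⟩ v43; ok v134 && (
  let v135 := add v133 v134; ok v135 && (
  let v136 := cst ⟨909282171328, 0, 0, 0⟩; ok v136 && (
  let v137 := add v135 v136; ok v137 && (
  let v138 := mul v137 v8; ok v138 && (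
  let v139 := add v118 v138; ok v139 && (
  let v140 := mul x0 x0; ok v140 && (
  let v141 := scale ⟨5703716569088, 0, 0, 0⟩ v140; ok v141 && (
  let v142 := cst ⟨1726576852992, 0, 0, 0⟩; ok v142 && (
  let v143 := add v141 v142; ok v143 && (
  let v144 := scale ⟨4398046511104, 0, 0, 0⟩ v8; ok v144 && (
  let v145 := mul v48 v143; ok v145 && (
  let v146 := scale ⟨4398046511104, 0, 0, 0⟩ v145; ok v146 && (
  let v147 := add v144 v146; ok v147 && (
  let v148 := scale ⟨0, 551558971392, 0, 0⟩ v36; ok v148 && (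
  let v149 := scale ⟨0, 144768368640, 0, 0⟩ v37; ok v149 && (
  let v150 := add v148 v149; ok v150 && (
  let v151 := scale ⟨2569607643136, 0, 0, 0⟩ v38; ok v151 && (
  let v152 := add v150 v151; ok v152 && (
  let v153 := scale ⟨1620948746240, 0, 0, 0⟩ v34; ok v153 && (
  let v154 := add v152 v153; ok v154 && (
  let v155 := scale ⟨5097332604928, 0, 0, 0⟩ v39; ok v155 && (
  let v156 := add v154 v155; ok v156 && (
  let v157 := cst ⟨413299179520, 0, 0, 0⟩; ok v157 && (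
  let v158 := add v156 v157; ok v158 && (
  let v159 := scale ⟨3161095929856, 0, 0, 0⟩ v11; ok v159 && (
  let v160 := neg v159; ok v160 && (
  let v161 := exp v160; ok v161 && (
  let v162 := mul v158 v161; ok v162 && (
  let v163 := mul v162 v147; ok v163 && (
  let v164 := scale ⟨879662989312, 0, 0, 0⟩ v147; ok v164 && (
  let v165 := add v164 v27; ok v165 && (
  isPos 2 v165 && (
  let v166 := inv v165; ok v166 && (
  let v167 := mul v163 v166; ok v167 && (
  let v168 := neg v139; ok v168 && (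
  let v169 := exp v168; ok v169 && (
  let v170 := add v169 v27; ok v170 && (
  isPos 2 v170 && (
  let v171 := log v170; ok v171 && (
  let v172 := mul v167 x2; ok v172 && (
  let v173 := sub v27 v172; ok v173 && (
  let v174 := log v173; ok v174 && (
  let v175 := mul v169 v172; ok v175 && (
  let v176 := add v175 v27; ok v176 && (
  isPos 2 v176 && (
  let v177 := log v176; ok v177 && (
  let v178 := scale ⟨274877906944, 0, 0, 0⟩ v22; ok v178 && (
  let v179 := log v28; ok v179 && (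
  let v180 := add v8 v179; ok v180 && (
  let v181 := sub v171 v177; ok v181 && (
  let v182 := sub v181 v180; ok v182 && (
  let v183 := mul v182 x0; ok v183 && (
  let v184 := exp v183; ok v184 && (
  let v185 := sub v177 v174; ok v185 && (
  let v186 := add v185 v139; ok v186 && (
  let v187 := mul v186 x0; ok v187 && (
  let v188 := exp v187; ok v188 && (
  let v189 := mul x0 v143; ok v189 && (
  let v190 := scale ⟨1649267441664, 0, 0, 0⟩ v178; ok v190 && (
  let v191 := add v190 v27; ok v191 && (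
  let v192 := mul v189 v191; ok v192 && (
  let v193 := mul v27 v192; ok v193 && (
  let v194 := scale ⟨0, 0, 1099511627776, 0⟩ v193; ok v194 && (
  let v195 := mul v194 v194; ok v195 && (
  let v196 := sub v178 v195; ok v196 && (
  let v197 := mul v184 v184; ok v197 && (
  let v198 := mul v197 v196; ok v198 && (
  let v199 := scale ⟨4398046511104, 0, 0, 0⟩ v198; ok v199 && (
  let v200 := sub v27 v199; ok v200 && (
  let v201 := log v200; ok v201 && (
  let v202 := scale ⟨549755813888, 0, 0, 0⟩ v201; ok v202 && (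
  let v203 := exp v202; ok v203 && (
  let v204 := mul v184 v194; ok v204 && (
  let v205 := mul v204 v203; ok v205 && (
  let v206 := scale ⟨4398046511104, 0, 0, 0⟩ v197; ok v206 && (
  let v207 := scale ⟨2199023255552, 0, 0, 0⟩ v195; ok v207 && (
  let v208 := sub v207 v178; ok v208 && (
  let v209 := mul v206 v208; ok v209 && (
  let v210 := add v209 v27; ok v210 && (
  let v211 := scale ⟨4398046511104, 0, 0, 0⟩ v205; ok v211 && (
  let v212 := sub v210 v211; ok v212 && (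
  let v213 := log v212; ok v213 && (
  let v214 := cst ⟨549755813888, 0, 0, 0⟩; ok v214 && (
  let v215 := sub v177 v171; ok v215 && (
  let v216 := scale ⟨549755813888, 0, 0, 0⟩ v9; ok v216 && (
  let v217 := mul v213 v216; ok v217 && (
  let v218 := add v215 v217; ok v218 && (
  let v219 := exp v218; ok v219 && (
  let v220 := sub v214 v219; ok v220 && (
  isPos 2 v220 && (
  true)))))))))))))))))))))))))))))))))))))))))))))))))))))))))))))))))))))))))))))))))))))))))))))))))))))))))))))))))))))))))))))))))))))))))))))))))))))))))))))))))))))))))))))))))))))))))))))))))))))))))))))))))))))))))))))))))))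
  | _ => false

set_option maxRecDepth 1000000 in
theorem c_T_0_eq (X : XOps) (m : List X.O.α)
    (h : c_T_0 X.O.cst X.O.add X.O.sub X.O.mul X.O.scale X.O.neg X.O.inv X.O.exp X.O.log X.O.ok
      X.O.isPos X.O.isLt X.ball X.rball m = true) :
    runX X 2 p_T_0 m = true := by
  match m, h with
  | [x0, x1, x2], h => exact h

abbrev gT : List (List Op) := [p_T_0]

noncomputable abbrev kT : List (List xE.O.α → Bool) := [c_T_0 xE.O.cst xE.O.add xE.O.sub xE.O.mul xE.O.scale xE.O.neg xE.O.inv xE.O.exp xE.O.log xE.O.ok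
      xE.O.isPos xE.O.isLt xE.ball xE.rball]

theorem kT_eq : List.Forall₂ (fun (ops : List Op) (chk : List xE.O.α → Bool) =>
    ∀ m, chk m = true → runX xE 2 ops m = true) gT kT :=
  List.Forall₂.cons (c_T_0_eq xE) List.Forall₂.nil

theorem gT_eq : gT = [comp (PT tab) ρ3 3] := by decide +kernel

def p_S_0 : List Op := [
  .scale ⟨33292438994944, 0, 0, 0⟩ 0,
  .const ⟨0, 15300552556544, 0, 0⟩,
  .add 1 0,
  .mul 0 3,
  .const ⟨2538325671936, 0, 0, 0⟩,
  .add 1 0,
  .mul 7 0,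
  .const ⟨1099511627776, 0, 0, 0⟩,
  .add 1 0,
  .mul 9 0,
  .scale ⟨2199023255552, 0, 0, 0⟩ 0,
  .exp 1,
  .neg 2,
  .exp 0,
  .mul 0 0,
  .sub 3 1,
  .add 4 2,
  .mul 1 0,
  .scale ⟨549755813888, 0, 0, 0⟩ 0,
  .inv 19,
  .mul 1 0,
  .const ⟨1099511627776, 0, 0, 0⟩,
  .const ⟨154618822656, 0, 0, 0⟩,
  .sub 23 0,
  .const ⟨1623497637888, 0, 0, 0⟩,
  .sub 16 0,
  .mul 0 0,
  .mul 0 1,
  .mul 4 2,
  .scale ⟨498440601600, 0, 0, 0⟩ 3,
  .scale ⟨0, 163363356672, 0, 0⟩ 3,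
  .add 1 0,
  .scale ⟨673073463296, 0, 0, 0⟩ 4,
  .add 1 0,
  .scale ⟨8588285247488, 0, 0, 0⟩ 10,
  .add 1 0,
  .scale ⟨8288851394560, 0, 0, 0⟩ 7,
  .add 1 0,
  .const ⟨2267317993472, 0, 0, 0⟩,
  .add 1 0,
  .pos 0,
  .mul 19 19,
  .const ⟨28141699465216, 0, 0, 0⟩,
  .add 1 0,
  .pos 0,
  .const ⟨154618822656, 0, 0, 0⟩,
  .sub 44 0,
  .const ⟨1623497637888, 0, 0, 0⟩,
  .sub 37 0,
  .mul 0 0,
  .mul 0 1,
  .mul 4 2,
  .scale ⟨498440601600, 0, 0, 0⟩ 3,
  .scale ⟨0, 163363356672, 0, 0⟩ 3,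
  .add 1 0,
  .scale ⟨673073463296, 0, 0, 0⟩ 4,
  .add 1 0,
  .scale ⟨8588285247488, 0, 0, 0⟩ 10,
  .add 1 0,
  .scale ⟨8288851394560, 0, 0, 0⟩ 7,
  .add 1 0,
  .const ⟨2267317993472, 0, 0, 0⟩,
  .add 1 0,
  .scale ⟨2199023255552, 0, 0, 0⟩ 50,
  .neg 0,
  .exp 0,
  .mul 53 3,
  .add 0 43,
  .mul 2 0,
  .sub 45 0,
  .inv 49,
  .mul 1 0,
  .pos 0,
  .scale ⟨1708512313344, 0, 0, 0⟩ 23,
  .scale ⟨249813598208, 0, 0, 0⟩ 23,
  .add 1 0,
  .scale ⟨0, 937950380032, 0, 0⟩ 24,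
  .add 1 0,
  .scale ⟨15013279301632, 0, 0, 0⟩ 30,
  .add 1 0,
  .scale ⟨14979941400576, 0, 0, 0⟩ 27,
  .add 1 0,
  .const ⟨2067391250432, 0, 0, 0⟩,
  .add 1 0,
  .pos 0,
  .mul 60 60,
  .const ⟨21982716362752, 0, 0, 0⟩,
  .add 1 0,
  .pos 0,
  .const ⟨154618822656, 0, 0, 0⟩,
  .sub 85 0,
  .const ⟨1623497637888, 0, 0, 0⟩,
  .sub 78 0,
  .mul 0 0,
  .mul 0 1,
  .mul 4 2,
  .scale ⟨2206952914944, 0, 0, 0⟩ 3,
  .scale ⟨86450241536, 0, 0, 0⟩ 3,
  .add 1 0,
  .scale ⟨0, 264876916736, 0, 0⟩ 4,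
  .add 1 0,
  .scale ⟨23601564549120, 0, 0, 0⟩ 10,
  .add 1 0,
  .scale ⟨23268792795136, 0, 0, 0⟩ 7,
  .add 1 0,
  .const ⟨4334709243904, 0, 0, 0⟩,
  .add 1 0,
  .scale ⟨4398046511104, 0, 0, 0⟩ 91,
  .neg 0,
  .exp 0,
  .mul 94 3,
  .add 0 84,
  .mul 2 0,
  .sub 86 0,
  .inv 90,
  .mul 1 0,
  .pos 0,
  .scale ⟨1552693329920, 0, 0, 0⟩ 23,
  .scale ⟨51150979072, 0, 0, 0⟩ 23,
  .add 1 0,
  .scale ⟨0, 955104362496, 0, 0⟩ 24,
  .add 1 0,
  .scale ⟨14366440030208, 0, 0, 0⟩ 30,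
  .add 1 0,
  .scale ⟨12479557140480, 0, 0, 0⟩ 27,
  .add 1 0,
  .const ⟨2028206424064, 0, 0, 0⟩,
  .add 1 0,
  .pos 0,
  .mul 101 101,
  .const ⟨11554535768064, 0, 0, 0⟩,
  .add 1 0,
  .pos 0,
  .const ⟨154618822656, 0, 0, 0⟩,
  .sub 126 0,
  .const ⟨1623497637888, 0, 0, 0⟩,
  .sub 119 0,
  .mul 0 0,
  .mul 0 1,
  .mul 4 2,
  .scale ⟨3759646244864, 0, 0, 0⟩ 3,
  .scale ⟨137601220608, 0, 0, 0⟩ 3,
  .add 1 0,
  .scale ⟨0, 1219981279232, 0, 0⟩ 4,
  .add 1 0,
  .scale ⟨37968004579328, 0, 0, 0⟩ 10,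
  .add 1 0,
  .scale ⟨35748349935616, 0, 0, 0⟩ 7,
  .add 1 0,
  .const ⟨6362915667968, 0, 0, 0⟩,
  .add 1 0,
  .scale ⟨6597069766656, 0, 0, 0⟩ 132,
  .neg 0,
  .exp 0,
  .mul 135 3,
  .add 0 125,
  .mul 2 0,
  .sub 127 0,
  .inv 131,
  .mul 1 0,
  .pos 0,
  .scale ⟨1347949625344, 0, 0, 0⟩ 23,
  .scale ⟨0, 178855346176, 0, 0⟩ 23,
  .add 1 0,
  .scale ⟨0, 952670945280, 0, 0⟩ 24,
  .add 1 0,
  .scale ⟨12565962489856, 0, 0, 0⟩ 30,
  .add 1 0,
  .scale ⟨9922180546560, 0, 0, 0⟩ 27,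
  .add 1 0,
  .const ⟨1897161687040, 0, 0, 0⟩,
  .add 1 0,
  .pos 0,
  .mul 142 142,
  .const ⟨5122822242304, 0, 0, 0⟩,
  .add 1 0,
  .pos 0,
  .const ⟨154618822656, 0, 0, 0⟩,
  .sub 167 0,
  .const ⟨1623497637888, 0, 0, 0⟩,
  .sub 160 0,
  .mul 0 0,
  .mul 0 1,
  .mul 4 2,
  .scale ⟨5107595870208, 0, 0, 0⟩ 3,
  .scale ⟨0, 41254125568, 0, 0⟩ 3,
  .add 1 0,
  .scale ⟨0, 2172652224512, 0, 0⟩ 4,
  .add 1 0,
  .scale ⟨50533967069184, 0, 0, 0⟩ 10,
  .add 1 0,
  .scale ⟨45670530482176, 0, 0, 0⟩ 7,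
  .add 1 0,
  .const ⟨8260077355008, 0, 0, 0⟩,
  .add 1 0,
  .scale ⟨8796093022208, 0, 0, 0⟩ 173,
  .neg 0,
  .exp 0,
  .mul 176 3,
  .add 0 166,
  .mul 2 0,
  .sub 168 0,
  .inv 172,
  .mul 1 0,
  .pos 0,
  .scale ⟨1376363282432, 0, 0, 0⟩ 23,
  .scale ⟨11807358976, 0, 0, 0⟩ 23,
  .add 1 0,
  .scale ⟨0, 330044735488, 0, 0⟩ 24,
  .add 1 0,
  .scale ⟨17092722491392, 0, 0, 0⟩ 30,
  .add 1 0,
  .scale ⟨21159291846656, 0, 0, 0⟩ 27,
  .add 1 0,
  .const ⟨1904727949312, 0, 0, 0⟩,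
  .add 1 0,
  .pos 0,
  .mul 183 183,
  .const ⟨1498943586304, 0, 0, 0⟩,
  .add 1 0,
  .pos 0,
  .const ⟨154618822656, 0, 0, 0⟩,
  .sub 208 0,
  .const ⟨1623497637888, 0, 0, 0⟩,
  .sub 201 0,
  .mul 0 0,
  .mul 0 1,
  .mul 4 2,
  .scale ⟨6483959152640, 0, 0, 0⟩ 3,
  .scale ⟨0, 29446766592, 0, 0⟩ 3,
  .add 1 0,
  .scale ⟨0, 2502696960000, 0, 0⟩ 4,
  .add 1 0,
  .scale ⟨67626689560576, 0, 0, 0⟩ 10,
  .add 1 0,
  .scale ⟨66829822328832, 0, 0, 0⟩ 7,
  .add 1 0,
  .const ⟨10164805304320, 0, 0, 0⟩,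
  .add 1 0,
  .scale ⟨10995116277760, 0, 0, 0⟩ 214,
  .neg 0,
  .exp 0,
  .mul 217 3,
  .add 0 207,
  .mul 2 0,
  .sub 209 0,
  .inv 213,
  .mul 1 0,
  .pos 0,
  .scale ⟨2128987881472, 0, 0, 0⟩ 23,
  .scale ⟨789373911040, 0, 0, 0⟩ 23,
  .add 1 0,
  .scale ⟨0, 104199880704, 0, 0⟩ 24,
  .add 1 0,
  .scale ⟨27820187516928, 0, 0, 0⟩ 30,
  .add 1 0,
  .scale ⟨42723842785280, 0, 0, 0⟩ 27,
  .add 1 0,
  .const ⟨2221956988928, 0, 0, 0⟩,
  .add 1 0,
  .pos 0,
  .mul 224 224,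
  .const ⟨0, 631360192512, 0, 0⟩,
  .add 1 0,
  .pos 0,
  .const ⟨154618822656, 0, 0, 0⟩,
  .sub 249 0,
  .const ⟨1623497637888, 0, 0, 0⟩,
  .sub 242 0,
  .mul 0 0,
  .mul 0 1,
  .mul 4 2,
  .scale ⟨8612947034112, 0, 0, 0⟩ 3,
  .scale ⟨759927144448, 0, 0, 0⟩ 3,
  .add 1 0,
  .scale ⟨0, 2606896840704, 0, 0⟩ 4,
  .add 1 0,
  .scale ⟨95446877077504, 0, 0, 0⟩ 10,
  .add 1 0,
  .scale ⟨109553665114112, 0, 0, 0⟩ 7,
  .add 1 0,
  .const ⟨12386762293248, 0, 0, 0⟩,
  .add 1 0,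
  .scale ⟨13194139533312, 0, 0, 0⟩ 255,
  .neg 0,
  .exp 0,
  .mul 258 3,
  .add 0 248,
  .mul 2 0,
  .sub 250 0,
  .inv 254,
  .mul 1 0,
  .pos 0,
  .mul 264 9,
  .add 0 254,
  .scale ⟨0, 4617948836659, 0, 0⟩ 266,
  .exp 0,
  .mul 2 0,
  .lt 0 1099511627520]

set_option maxRecDepth 1000000 in
noncomputable def c_S_0 {α : Type} (cst : Z → α) (add sub mul : α → α → α) (scale : Z → α → α)
    (neg inv exp log : α → α) (ok : α → Bool) (isPos : Nat → α → Bool) (isLt : α → Nat → Bool)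
    (ball : Nat → α → α) (rball : α → α → α) : List α → Bool
  | [x0, x1] =>
  let v0 := scale ⟨33292438994944, 0, 0, 0⟩ x0; ok v0 && (
  let v1 := cst ⟨0, 15300552556544, 0, 0⟩; ok v1 && (
  let v2 := add v0 v1; ok v2 && (
  let v3 := mul v2 x0; ok v3 && (
  let v4 := cst ⟨2538325671936, 0, 0, 0⟩; ok v4 && (
  let v5 := add v3 v4; ok v5 && (
  let v6 := mul x1 v5; ok v6 && (
  let v7 := cst ⟨1099511627776, 0, 0, 0⟩; ok v7 && (
  let v8 := add v6 v7; ok v8 && (
  let v9 := mul x0 v8; ok v9 && (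
  let v10 := scale ⟨2199023255552, 0, 0, 0⟩ v9; ok v10 && (
  let v11 := exp v9; ok v11 && (
  let v12 := neg v9; ok v12 && (
  let v13 := exp v12; ok v13 && (
  let v14 := mul v13 v13; ok v14 && (
  let v15 := sub v11 v13; ok v15 && (
  let v16 := add v11 v13; ok v16 && (
  let v17 := mul v15 v16; ok v17 && (
  let v18 := scale ⟨549755813888, 0, 0, 0⟩ v17; ok v18 && (
  let v19 := inv x0; ok v19 && (
  let v20 := mul v18 v19; ok v20 && (
  let v21 := cst ⟨1099511627776, 0, 0, 0⟩; ok v21 && (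
  let v22 := cst ⟨154618822656, 0, 0, 0⟩; ok v22 && (
  let v23 := sub x0 v22; ok v23 && (
  let v24 := cst ⟨1623497637888, 0, 0, 0⟩; ok v24 && (
  let v25 := sub v8 v24; ok v25 && (
  let v26 := mul v25 v25; ok v26 && (
  let v27 := mul v26 v25; ok v27 && (
  let v28 := mul v23 v25; ok v28 && (
  let v29 := scale ⟨498440601600, 0, 0, 0⟩ v25; ok v29 && (
  let v30 := scale ⟨0, 163363356672, 0, 0⟩ v26; ok v30 && (
  let v31 := add v29 v30; ok v31 && (
  let v32 := scale ⟨673073463296, 0, 0, 0⟩ v27; ok v32 && (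
  let v33 := add v31 v32; ok v33 && (
  let v34 := scale ⟨8588285247488, 0, 0, 0⟩ v23; ok v34 && (
  let v35 := add v33 v34; ok v35 && (
  let v36 := scale ⟨8288851394560, 0, 0, 0⟩ v28; ok v36 && (
  let v37 := add v35 v36; ok v37 && (
  let v38 := cst ⟨2267317993472, 0, 0, 0⟩; ok v38 && (
  let v39 := add v37 v38; ok v39 && (
  isPos 2 v39 && (
  let v40 := mul v20 v20; ok v40 && (
  let v41 := cst ⟨28141699465216, 0, 0, 0⟩; ok v41 && (
  let v42 := add v40 v41; ok v42 && (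
  isPos 2 v42 && (
  let v43 := cst ⟨154618822656, 0, 0, 0⟩; ok v43 && (
  let v44 := sub x0 v43; ok v44 && (
  let v45 := cst ⟨1623497637888, 0, 0, 0⟩; ok v45 && (
  let v46 := sub v8 v45; ok v46 && (
  let v47 := mul v46 v46; ok v47 && (
  let v48 := mul v47 v46; ok v48 && (
  let v49 := mul v44 v46; ok v49 && (
  let v50 := scale ⟨498440601600, 0, 0, 0⟩ v46; ok v50 && (
  let v51 := scale ⟨0, 163363356672, 0, 0⟩ v47; ok v51 && (
  let v52 := add v50 v51; ok v52 && (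
  let v53 := scale ⟨673073463296, 0, 0, 0⟩ v48; ok v53 && (
  let v54 := add v52 v53; ok v54 && (
  let v55 := scale ⟨8588285247488, 0, 0, 0⟩ v44; ok v55 && (
  let v56 := add v54 v55; ok v56 && (
  let v57 := scale ⟨8288851394560, 0, 0, 0⟩ v49; ok v57 && (
  let v58 := add v56 v57; ok v58 && (
  let v59 := cst ⟨2267317993472, 0, 0, 0⟩; ok v59 && (
  let v60 := add v58 v59; ok v60 && (
  let v61 := scale ⟨2199023255552, 0, 0, 0⟩ v10; ok v61 && (
  let v62 := neg v61; ok v62 && (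
  let v63 := exp v62; ok v63 && (
  let v64 := mul v10 v60; ok v64 && (
  let v65 := add v64 v21; ok v65 && (
  let v66 := mul v63 v65; ok v66 && (
  let v67 := sub v21 v66; ok v67 && (
  let v68 := inv v18; ok v68 && (
  let v69 := mul v67 v68; ok v69 && (
  isPos 2 v69 && (
  let v70 := scale ⟨1708512313344, 0, 0, 0⟩ v46; ok v70 && (
  let v71 := scale ⟨249813598208, 0, 0, 0⟩ v47; ok v71 && (
  let v72 := add v70 v71; ok v72 && (
  let v73 := scale ⟨0, 937950380032, 0, 0⟩ v48; ok v73 && (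
  let v74 := add v72 v73; ok v74 && (
  let v75 := scale ⟨15013279301632, 0, 0, 0⟩ v44; ok v75 && (
  let v76 := add v74 v75; ok v76 && (
  let v77 := scale ⟨14979941400576, 0, 0, 0⟩ v49; ok v77 && (
  let v78 := add v76 v77; ok v78 && (
  let v79 := cst ⟨2067391250432, 0, 0, 0⟩; ok v79 && (
  let v80 := add v78 v79; ok v80 && (
  isPos 2 v80 && (
  let v81 := mul v20 v20; ok v81 && (
  let v82 := cst ⟨21982716362752, 0, 0, 0⟩; ok v82 && (
  let v83 := add v81 v82; ok v83 && (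
  isPos 2 v83 && (
  let v84 := cst ⟨154618822656, 0, 0, 0⟩; ok v84 && (
  let v85 := sub x0 v84; ok v85 && (
  let v86 := cst ⟨1623497637888, 0, 0, 0⟩; ok v86 && (
  let v87 := sub v8 v86; ok v87 && (
  let v88 := mul v87 v87; ok v88 && (
  let v89 := mul v88 v87; ok v89 && (
  let v90 := mul v85 v87; ok v90 && (
  let v91 := scale ⟨2206952914944, 0, 0, 0⟩ v87; ok v91 && (
  let v92 := scale ⟨86450241536, 0, 0, 0⟩ v88; ok v92 && (
  let v93 := add v91 v92; ok v93 && (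
  let v94 := scale ⟨0, 264876916736, 0, 0⟩ v89; ok v94 && (
  let v95 := add v93 v94; ok v95 && (
  let v96 := scale ⟨23601564549120, 0, 0, 0⟩ v85; ok v96 && (
  let v97 := add v95 v96; ok v97 && (
  let v98 := scale ⟨23268792795136, 0, 0, 0⟩ v90; ok v98 && (
  let v99 := add v97 v98; ok v99 && (
  let v100 := cst ⟨4334709243904, 0, 0, 0⟩; ok v100 && (
  let v101 := add v99 v100; ok v101 && (
  let v102 := scale ⟨4398046511104, 0, 0, 0⟩ v10; ok v102 && (
  let v103 := neg v102; ok v103 && (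
  let v104 := exp v103; ok v104 && (
  let v105 := mul v10 v101; ok v105 && (
  let v106 := add v105 v21; ok v106 && (
  let v107 := mul v104 v106; ok v107 && (
  let v108 := sub v21 v107; ok v108 && (
  let v109 := inv v18; ok v109 && (
  let v110 := mul v108 v109; ok v110 && (
  isPos 2 v110 && (
  let v111 := scale ⟨1552693329920, 0, 0, 0⟩ v87; ok v111 && (
  let v112 := scale ⟨51150979072, 0, 0, 0⟩ v88; ok v112 && (
  let v113 := add v111 v112; ok v113 && (
  let v114 := scale ⟨0, 955104362496, 0, 0⟩ v89; ok v114 && (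
  let v115 := add v113 v114; ok v115 && (
  let v116 := scale ⟨14366440030208, 0, 0, 0⟩ v85; ok v116 && (
  let v117 := add v115 v116; ok v117 && (
  let v118 := scale ⟨12479557140480, 0, 0, 0⟩ v90; ok v118 && (
  let v119 := add v117 v118; ok v119 && (
  let v120 := cst ⟨2028206424064, 0, 0, 0⟩; ok v120 && (
  let v121 := add v119 v120; ok v121 && (
  isPos 2 v121 && (
  let v122 := mul v20 v20; ok v122 && (
  let v123 := cst ⟨11554535768064, 0, 0, 0⟩; ok v123 && (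
  let v124 := add v122 v123; ok v124 && (
  isPos 2 v124 && (
  let v125 := cst ⟨154618822656, 0, 0, 0⟩; ok v125 && (
  let v126 := sub x0 v125; ok v126 && (
  let v127 := cst ⟨1623497637888, 0, 0, 0⟩; ok v127 && (
  let v128 := sub v8 v127; ok v128 && (
  let v129 := mul v128 v128; ok v129 && (
  let v130 := mul v129 v128; ok v130 && (
  let v131 := mul v126 v128; ok v131 && (
  let v132 := scale ⟨3759646244864, 0, 0, 0⟩ v128; ok v132 && (
  let v133 := scale ⟨137601220608, 0, 0, 0⟩ v129; ok v133 && (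
  let v134 := add v132 v133; ok v134 && (
  let v135 := scale ⟨0, 1219981279232, 0, 0⟩ v130; ok v135 && (
  let v136 := add v134 v135; ok v136 && (
  let v137 := scale ⟨37968004579328, 0, 0, 0⟩ v126; ok v137 && (
  let v138 := add v136 v137; ok v138 && (
  let v139 := scale ⟨35748349935616, 0, 0, 0⟩ v131; ok v139 && (
  let v140 := add v138 v139; ok v140 && (
  let v141 := cst ⟨6362915667968, 0, 0, 0⟩; ok v141 && (
  let v142 := add v140 v141; ok v142 && (
  let v143 := scale ⟨6597069766656, 0, 0, 0⟩ v10; ok v143 && (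
  let v144 := neg v143; ok v144 && (
  let v145 := exp v144; ok v145 && (
  let v146 := mul v10 v142; ok v146 && (
  let v147 := add v146 v21; ok v147 && (
  let v148 := mul v145 v147; ok v148 && (
  let v149 := sub v21 v148; ok v149 && (
  let v150 := inv v18; ok v150 && (
  let v151 := mul v149 v150; ok v151 && (
  isPos 2 v151 && (
  let v152 := scale ⟨1347949625344, 0, 0, 0⟩ v128; ok v152 && (
  let v153 := scale ⟨0, 178855346176, 0, 0⟩ v129; ok v153 && (
  let v154 := add v152 v153; ok v154 && (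
  let v155 := scale ⟨0, 952670945280, 0, 0⟩ v130; ok v155 && (
  let v156 := add v154 v155; ok v156 && (
  let v157 := scale ⟨12565962489856, 0, 0, 0⟩ v126; ok v157 && (
  let v158 := add v156 v157; ok v158 && (
  let v159 := scale ⟨9922180546560, 0, 0, 0⟩ v131; ok v159 && (
  let v160 := add v158 v159; ok v160 && (
  let v161 := cst ⟨1897161687040, 0, 0, 0⟩; ok v161 && (
  let v162 := add v160 v161; ok v162 && (
  isPos 2 v162 && (
  let v163 := mul v20 v20; ok v163 && (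
  let v164 := cst ⟨5122822242304, 0, 0, 0⟩; ok v164 && (
  let v165 := add v163 v164; ok v165 && (
  isPos 2 v165 && (
  let v166 := cst ⟨154618822656, 0, 0, 0⟩; ok v166 && (
  let v167 := sub x0 v166; ok v167 && (
  let v168 := cst ⟨1623497637888, 0, 0, 0⟩; ok v168 && (
  let v169 := sub v8 v168; ok v169 && (
  let v170 := mul v169 v169; ok v170 && (
  let v171 := mul v170 v169; ok v171 && (
  let v172 := mul v167 v169; ok v172 && (
  let v173 := scale ⟨5107595870208, 0, 0, 0⟩ v169; ok v173 && (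
  let v174 := scale ⟨0, 41254125568, 0, 0⟩ v170; ok v174 && (
  let v175 := add v173 v174; ok v175 && (
  let v176 := scale ⟨0, 2172652224512, 0, 0⟩ v171; ok v176 && (
  let v177 := add v175 v176; ok v177 && (
  let v178 := scale ⟨50533967069184, 0, 0, 0⟩ v167; ok v178 && (
  let v179 := add v177 v178; ok v179 && (
  let v180 := scale ⟨45670530482176, 0, 0, 0⟩ v172; ok v180 && (
  let v181 := add v179 v180; ok v181 && (
  let v182 := cst ⟨8260077355008, 0, 0, 0⟩; ok v182 && (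
  let v183 := add v181 v182; ok v183 && (
  let v184 := scale ⟨8796093022208, 0, 0, 0⟩ v10; ok v184 && (
  let v185 := neg v184; ok v185 && (
  let v186 := exp v185; ok v186 && (
  let v187 := mul v10 v183; ok v187 && (
  let v188 := add v187 v21; ok v188 && (
  let v189 := mul v186 v188; ok v189 && (
  let v190 := sub v21 v189; ok v190 && (
  let v191 := inv v18; ok v191 && (
  let v192 := mul v190 v191; ok v192 && (
  isPos 2 v192 && (
  let v193 := scale ⟨1376363282432, 0, 0, 0⟩ v169; ok v193 && (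
  let v194 := scale ⟨11807358976, 0, 0, 0⟩ v170; ok v194 && (
  let v195 := add v193 v194; ok v195 && (
  let v196 := scale ⟨0, 330044735488, 0, 0⟩ v171; ok v196 && (
  let v197 := add v195 v196; ok v197 && (
  let v198 := scale ⟨17092722491392, 0, 0, 0⟩ v167; ok v198 && (
  let v199 := add v197 v198; ok v199 && (
  let v200 := scale ⟨21159291846656, 0, 0, 0⟩ v172; ok v200 && (
  let v201 := add v199 v200; ok v201 && (
  let v202 := cst ⟨1904727949312, 0, 0, 0⟩; ok v202 && (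
  let v203 := add v201 v202; ok v203 && (
  isPos 2 v203 && (
  let v204 := mul v20 v20; ok v204 && (
  let v205 := cst ⟨1498943586304, 0, 0, 0⟩; ok v205 && (
  let v206 := add v204 v205; ok v206 && (
  isPos 2 v206 && (
  let v207 := cst ⟨154618822656, 0, 0, 0⟩; ok v207 && (
  let v208 := sub x0 v207; ok v208 && (
  let v209 := cst ⟨1623497637888, 0, 0, 0⟩; ok v209 && (
  let v210 := sub v8 v209; ok v210 && (
  let v211 := mul v210 v210; ok v211 && (
  let v212 := mul v211 v210; ok v212 && (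
  let v213 := mul v208 v210; ok v213 && (
  let v214 := scale ⟨6483959152640, 0, 0, 0⟩ v210; ok v214 && (
  let v215 := scale ⟨0, 29446766592, 0, 0⟩ v211; ok v215 && (
  let v216 := add v214 v215; ok v216 && (
  let v217 := scale ⟨0, 2502696960000, 0, 0⟩ v212; ok v217 && (
  let v218 := add v216 v217; ok v218 && (
  let v219 := scale ⟨67626689560576, 0, 0, 0⟩ v208; ok v219 && (
  let v220 := add v218 v219; ok v220 && (
  let v221 := scale ⟨66829822328832, 0, 0, 0⟩ v213; ok v221 && (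
  let v222 := add v220 v221; ok v222 && (
  let v223 := cst ⟨10164805304320, 0, 0, 0⟩; ok v223 && (
  let v224 := add v222 v223; ok v224 && (
  let v225 := scale ⟨10995116277760, 0, 0, 0⟩ v10; ok v225 && (
  let v226 := neg v225; ok v226 && (
  let v227 := exp v226; ok v227 && (
  let v228 := mul v10 v224; ok v228 && (
  let v229 := add v228 v21; ok v229 && (
  let v230 := mul v227 v229; ok v230 && (
  let v231 := sub v21 v230; ok v231 && (
  let v232 := inv v18; ok v232 && (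
  let v233 := mul v231 v232; ok v233 && (
  isPos 2 v233 && (
  let v234 := scale ⟨2128987881472, 0, 0, 0⟩ v210; ok v234 && (
  let v235 := scale ⟨789373911040, 0, 0, 0⟩ v211; ok v235 && (
  let v236 := add v234 v235; ok v236 && (
  let v237 := scale ⟨0, 104199880704, 0, 0⟩ v212; ok v237 && (
  let v238 := add v236 v237; ok v238 && (
  let v239 := scale ⟨27820187516928, 0, 0, 0⟩ v208; ok v239 && (
  let v240 := add v238 v239; ok v240 && (
  let v241 := scale ⟨42723842785280, 0, 0, 0⟩ v213; ok v241 && (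
  let v242 := add v240 v241; ok v242 && (
  let v243 := cst ⟨2221956988928, 0, 0, 0⟩; ok v243 && (
  let v244 := add v242 v243; ok v244 && (
  isPos 2 v244 && (
  let v245 := mul v20 v20; ok v245 && (
  let v246 := cst ⟨0, 631360192512, 0, 0⟩; ok v246 && (
  let v247 := add v245 v246; ok v247 && (
  isPos 2 v247 && (
  let v248 := cst ⟨154618822656, 0, 0, 0⟩; ok v248 && (
  let v249 := sub x0 v248; ok v249 && (
  let v250 := cst ⟨1623497637888, 0, 0, 0⟩; ok v250 && (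
  let v251 := sub v8 v250; ok v251 && (
  let v252 := mul v251 v251; ok v252 && (
  let v253 := mul v252 v251; ok v253 && (
  let v254 := mul v249 v251; ok v254 && (
  let v255 := scale ⟨8612947034112, 0, 0, 0⟩ v251; ok v255 && (
  let v256 := scale ⟨759927144448, 0, 0, 0⟩ v252; ok v256 && (
  let v257 := add v255 v256; ok v257 && (
  let v258 := scale ⟨0, 2606896840704, 0, 0⟩ v253; ok v258 && (
  let v259 := add v257 v258; ok v259 && (
  let v260 := scale ⟨95446877077504, 0, 0, 0⟩ v249; ok v260 && (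
  let v261 := add v259 v260; ok v261 && (
  let v262 := scale ⟨109553665114112, 0, 0, 0⟩ v254; ok v262 && (
  let v263 := add v261 v262; ok v263 && (
  let v264 := cst ⟨12386762293248, 0, 0, 0⟩; ok v264 && (
  let v265 := add v263 v264; ok v265 && (
  let v266 := scale ⟨13194139533312, 0, 0, 0⟩ v10; ok v266 && (
  let v267 := neg v266; ok v267 && (
  let v268 := exp v267; ok v268 && (
  let v269 := mul v10 v265; ok v269 && (
  let v270 := add v269 v21; ok v270 && (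
  let v271 := mul v268 v270; ok v271 && (
  let v272 := sub v21 v271; ok v272 && (
  let v273 := inv v18; ok v273 && (
  let v274 := mul v272 v273; ok v274 && (
  isPos 2 v274 && (
  let v275 := mul v10 v265; ok v275 && (
  let v276 := add v275 v21; ok v276 && (
  let v277 := scale ⟨0, 4617948836659, 0, 0⟩ v10; ok v277 && (
  let v278 := exp v277; ok v278 && (
  let v279 := mul v276 v278; ok v279 && (
  isLt v279 1099511627520 && (
  true)))))))))))))))))))))))))))))))))))))))))))))))))))))))))))))))))))))))))))))))))))))))))))))))))))))))))))))))))))))))))))))))))))))))))))))))))))))))))))))))))))))))))))))))))))))))))))))))))))))))))))))))))))))))))))))))))))))))))))))))))))))))))))))))))))))))))))))))))))))))))))))))))))))))))))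
  | _ => false

set_option maxRecDepth 1000000 in
theorem c_S_0_eq (X : XOps) (m : List X.O.α)
    (h : c_S_0 X.O.cst X.O.add X.O.sub X.O.mul X.O.scale X.O.neg X.O.inv X.O.exp X.O.log X.O.ok
      X.O.isPos X.O.isLt X.ball X.rball m = true) :
    runX X 2 p_S_0 m = true := by
  match m, h with
  | [x0, x1], h => exact h

abbrev gS : List (List Op) := [p_S_0]

noncomputable abbrev kS : List (List xE.O.α → Bool) := [c_S_0 xE.O.cst xE.O.add xE.O.sub xE.O.mul xE.O.scale xE.O.neg xE.O.inv xE.O.exp xE.O.log xE.O.ok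
      xE.O.isPos xE.O.isLt xE.ball xE.rball]

theorem kS_eq : List.Forall₂ (fun (ops : List Op) (chk : List xE.O.α → Bool) =>
    ∀ m, chk m = true → runX xE 2 ops m = true) gS kS :=
  List.Forall₂.cons (c_S_0_eq xE) List.Forall₂.nil

theorem gS_eq : gS = [PS tab 6] := by decide +kernel

end Pool.Agent.helper14.NR.E6d
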