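import Pool.Agent.helper63.NF.Cert

/-!
Generated: table E6d.
-/

namespace Pool.Agent.helper14.NR.E6d

open Pool.Agent.helper63.NF

def tab : TD where
  strip := false
  bm := some (33292438994944, -15300552556544, 2538325671936, 1099511627776)
  ec := 154618822656
  bc := 1623497637888
  H := [[[68271146624, -594666048, 3336493952, 1399373632], [293241411776, -88416207360, 10426423872], [77459315456, 1061676362240], [18662184466368]], [[-13931174016, -2125004096, 23711680], [-76269569152, -2734004672], [-202022537856]], [[-255209152, 330536768], [-1666385728]], [[179761344]], [[-15578432]]]
  pol := none
  a := [[[413299179520, -551558971392, -144768368640, 2569607643136], [1620948746240, 5097332604928]], [[109951188992, 0, 0, 0], [0, 0]], [[109951188992, 0, 0, 0], [0, 0]], [[109951188992, 0, 0, 0], [0, 0]], [[109951188992, 0, 0, 0], [0, 0]], [[109951188992, 0, 0, 0], [0, 0]]]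
  j := [3161095929856, 1649267441664, 3298534883328, 4947802324992, 6597069766656, 8246337208320]
  c := [879662989312, 879662989312, 659814350848, 549755813888, 439697276928, 329907175424]
  M := [[[[1335037329408, 406169583616, 116867006464], [3650398388224, 5322099720192], [15302263767040]], [[589733167104, -37261934592], [5716291223552]], [[-19391578112, -30504321024], [-5313200914432]], [[-211445678080]], [[114283446272]], [[-54663970816]]], [[[1290974265344, 283526955008, 3995336704], [3381958410240]], [[125964779520, 12125143040], [614082150400]], [[-8290041856]], [[384958464]]], [[[1307144552448, 293614911488, 5102436352], [3453475225600]], [[115158089728, 9242607616], [584277819392]], [[-6166675456]], [[249036800]]], [[[1320400257024, 371162021888, 36551327744], [1304768937984]], [[104864874496, -9053339648], [1104049799168]], [[-3872522240]], [[41222144]]], [[[1485908541440, 497904058368, 126217158656], [-2334218518528]], [[-9334095872, -37237686272], [1969042882560]], [[22622961664]], [[-2147221504]]], [[[1628411002880, 575152652288, 176406921216], [-3008262373376]], [[-115596722176, -53126430720], [2129400758272]], [[50432835584]], [[-4685627392]]]]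
  l0 := [[[3526641754112, -530507286080, -89932695360], [-1304065168320, -1597370384064], [12624974727040]], [[-387406483008, 255206890304, 48254659328], [-13873258007232, -2470414439936], [-66408386755776]], [[-91049434368, 20771600192, -109128087680], [-10703428224, -262279890688], [31867262540224]], [[92308405760, -515062083520], [-11623006838144]], [[-816902713408, 594202939072], [10514962474688]], [[949195584384, -337265561216], [-3171997818496]], [[-793506521600]], [[278211310976]], [[-31769715968]], [[-143518281024]]]
  q0 := [[909282171328, 558864633920, -112062954368, 2949282048], [5356231329088, 1289511224192, -1130085825536], [-10722031711104, -5744559240832], [-33077843126592]]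
  t := [[[2267317993472, 498440601600, -163363356672, 673073463296], [8588285247488, 8288851394560]], [[2067391250432, 1708512313344, 249813598208, -937950380032], [15013279301632, 14979941400576]], [[2028206424064, 1552693329920, 51150979072, -955104362496], [14366440030208, 12479557140480]], [[1897161687040, 1347949625344, -178855346176, -952670945280], [12565962489856, 9922180546560]], [[1904727949312, 1376363282432, 11807358976, -330044735488], [17092722491392, 21159291846656]], [[2221956988928, 2128987881472, 789373911040, -104199880704], [27820187516928, 42723842785280]]]
  y := [28141699465216, 21982716362752, 11554535768064, 5122822242304, 1498943586304, -631360192512]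
  sc := [0, 0, 0, 0, 0, 3]
  L := [(0, 2), (0, 3), (1, 1), (1, 2), (2, 0), (2, 1), (3, 0)]
  Lt := [(0, 2), (0, 3), (1, 1)]
  far := 1
  x2 := 10775213113344
  B1 := 659706347520
  C2 := 1327712154624
  f1 := 769658138624
  f2 := 0
  f3 := 0
  is1 := 8796093022208
  s1 := 137438953472

end Pool.Agent.helper14.NR.E6d
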